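import Pool.Agent.J4.H45.KL.Bohr

/-!
# Tuples of zeros up to height `T`
-/

open Complex Filter Topology Set MeasureTheory
open scoped BigOperators ComplexConjugate

namespace Pool.Agent.J4.H45.KL

open H370 Pool.Agent.N802 Pool.Agent.N802.U Pool.Agent.J4.H45.MT
open Pool.Agent.W54.TCF (Z mlt)

open Classical in
/-- the indices of the zeros up to height `T` in a window -/
noncomputable def winT (T h c : ℝ) : Finset (ℝ × ℕ) :=
  idxF ((zeta_zeros_finite T).toFinset.filter (fun s => |s.im - c| ≤ h))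

lemma card_winT {T h c : ℝ} (hc : 1 < c - h) : ((winT T h c).card : ℝ) ≤ nz h c := by
  classical
  unfold winT
  refine (card_idxF _).trans ?_
  rw [nz_eq (a := 1) (b := c + h) le_rfl hc le_rfl]
  unfold na
  refine Finset.sum_le_sum_of_subset_of_nonneg (fun s hs => ?_) fun _ _ _ => Nat.cast_nonneg _
  rw [Finset.mem_filter, Set.Finite.mem_toFinset] at hs
  obtain ⟨⟨g1, g2, g3, g4, g5⟩, g6⟩ := hs
  have := abs_le.1 g6
  rw [Finset.mem_filter, mem_Zf good_zeta le_rfl]
  exact ⟨⟨g1, g2, by linarith, by linarith, g5⟩, g6⟩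

lemma card_winT2 {T h c V : ℝ} (hc : c + h ≤ V) : ((winT T h c).card : ℝ) ≤
    ∑ s ∈ (zeta_zeros_finite V).toFinset, (analyticOrderNatAt riemannZeta s : ℝ) := by
  classical
  unfold winT
  refine (card_idxF _).trans ?_
  refine Finset.sum_le_sum_of_subset_of_nonneg (fun s hs => ?_) fun _ _ _ => Nat.cast_nonneg _
  rw [Finset.mem_filter, Set.Finite.mem_toFinset] at hs
  obtain ⟨⟨g1, g2, g3, g4, g5⟩, g6⟩ := hs
  have := abs_le.1 g6
  rw [Set.Finite.mem_toFinset]
  exact ⟨g1, g2, g3, by linarith, g5⟩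

lemma mem_winT {T h c : ℝ} {p : ℝ × ℕ} (h0 : 0 < p.1) (hT : p.1 ≤ T) (h1 : Z p.1 = 0)
    (h2 : p.2 < mlt p.1) (h3 : |p.1 - c| ≤ h) : p ∈ winT T h c := by
  classical
  unfold winT
  refine mem_idxF h1 h2 ?_
  rw [Finset.mem_filter, Set.Finite.mem_toFinset]
  exact ⟨⟨by norm_num, by norm_num, h0, hT, Z_half.1 h1⟩, h3⟩

/-- the sums over the zeros up to height `V` -/
noncomputable def FF {n : ℕ} (T : ℝ) (u h : Fin n → ℝ) (V : ℝ) : ℝ :=
  ∑ s ∈ (zeta_zeros_finite V).toFinset, (analyticOrderNatAt riemannZeta s : ℝ) *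
    ∏ i, ((winT T (h i) (s.im + u i)).card : ℝ)

lemma FF_term {n : ℕ} (T : ℝ) (u h : Fin n → ℝ) (s : ℂ) :
    0 ≤ (analyticOrderNatAt riemannZeta s : ℝ) * ∏ i, ((winT T (h i) (s.im + u i)).card : ℝ) :=
  mul_nonneg (Nat.cast_nonneg _) (Finset.prod_nonneg fun _ _ => Nat.cast_nonneg _)

lemma FF_mono {n : ℕ} (T : ℝ) (u h : Fin n → ℝ) {V V' : ℝ} (hV : V ≤ V') :
    FF T u h V ≤ FF T u h V' := by
  classical
  unfold FF
  refine Finset.sum_le_sum_of_subset_of_nonneg (fun s hs => ?_) fun _ _ _ => FF_term T u h _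
  rw [Set.Finite.mem_toFinset] at hs ⊢
  obtain ⟨g1, g2, g3, g4, g5⟩ := hs
  exact ⟨g1, g2, g3, g4.trans hV, g5⟩

/-- the sum up to height `T` -/
lemma FF_all (hRH : RiemannHypothesis) : ∃ C V1 : ℝ, 1 ≤ C ∧ 160 ≤ V1 ∧
    ∀ T : ℝ, 2 ≤ T → ∀ n : ℕ, 1 ≤ n → ∀ u h : Fin n → ℝ, (∀ i, |u i| ≤ 6.3) → (∀ i, 0 ≤ h i) →
    (∀ i, h i ≤ 6.3) →
    FF T u h T ≤ FF T u h V1 +
      (∏ i, (C * (1 + h i * Real.log T + Mk n))) * (T * Real.log T) := by
  classical
  obtain ⟨C, T0, hC, hT0, hk⟩ := kmom_all hRH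
  obtain ⟨V0, hV0, hV0T, hV02⟩ : ∃ V0 : ℝ, 160 ≤ V0 ∧ T0 ≤ V0 ∧ 2 ≤ V0 ^ (1 / 64 : ℝ) := by
    refine ⟨max (max 160 T0) ((2 : ℝ) ^ (64 : ℝ)), (le_max_left _ _).trans (le_max_left _ _),
      (le_max_right _ _).trans (le_max_left _ _), ?_⟩
    calc (2 : ℝ) = ((2 : ℝ) ^ (64 : ℝ)) ^ (1 / 64 : ℝ) := by
          rw [← Real.rpow_mul (by norm_num)]
          norm_num
      _ ≤ _ := Real.rpow_le_rpow (by positivity) (le_max_right _ _) (by norm_num)
  refine ⟨C, V0 + V0 / 2, hC, by linarith, fun T hT n hn u h hu hh0 hh1 => ?_⟩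
  have hM := Mk_pos hn
  have hLT : 0 < Real.log T := Real.log_pos (by linarith)
  set B : ℝ := ∏ i, (C * (1 + h i * Real.log T + Mk n)) with hB
  have hB0 : 0 ≤ B := Finset.prod_nonneg fun i _ => by
    have := mul_nonneg (hh0 i) hLT.le
    exact mul_nonneg (by linarith) (by linarith)
  have hstep : ∀ V : ℝ, V0 ≤ V → V ≤ T → FF T u h (V + V / 2) ≤ FF T u h V +
      B * (V / 2 * Real.log V) := by
    intro V hV hVT
    have hVp : 0 < V := by linarith
    have hLV : 0 ≤ Real.log V := Real.log_nonneg (by linarith)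
    have hL : Real.log V ≤ Real.log T := Real.log_le_log hVp hVT
    have h2 : 2 ≤ V ^ (1 / 64 : ℝ) := hV02.trans (Real.rpow_le_rpow (by linarith) hV (by norm_num))
    have hV2 : V ^ (1 - 1 / 64 : ℝ) ≤ V / 2 := by
      rw [Real.rpow_sub hVp, Real.rpow_one, div_le_div_iff₀ (by positivity) (by norm_num)]
      nlinarith
    set X := (zeta_zeros_finite (V + V / 2)).toFinset.filter (fun s => V < s.im) with hX
    have hXm : ∀ s ∈ X, riemannZeta s = 0 ∧ 0 < s.re ∧ s.re < 1 ∧ V < s.im ∧ s.im ≤ V + V / 2 := by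
      intro s hs
      rw [hX, Finset.mem_filter, Set.Finite.mem_toFinset] at hs
      obtain ⟨⟨g1, g2, g3, g4, g5⟩, g6⟩ := hs
      exact ⟨g5, g1, g2, g6, g4⟩
    have h3 : FF T u h (V + V / 2) ≤ FF T u h V + ∑ s ∈ X, (analyticOrderNatAt riemannZeta s : ℝ) *
        ∏ i, ((winT T (h i) (s.im + u i)).card : ℝ) := by
      unfold FF
      rw [← Finset.sum_union]
      · refine Finset.sum_le_sum_of_subset_of_nonneg (fun s hs => ?_) fun _ _ _ => FF_term T u h _
        rw [Finset.mem_union]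
        by_cases h' : s.im ≤ V
        · left
          rw [Set.Finite.mem_toFinset] at hs ⊢
          obtain ⟨g1, g2, g3, g4, g5⟩ := hs
          exact ⟨g1, g2, g3, h', g5⟩
        · right
          push Not at h'
          rw [hX, Finset.mem_filter]
          exact ⟨hs, h'⟩
      · rw [Finset.disjoint_left]
        intro s hs hs'
        rw [Set.Finite.mem_toFinset] at hs
        have g1 := hs.2.2.2.1
        have g2 := (hXm s hs').2.2.2.1
        linarith
    have h4 := hk V (hV0T.trans hV) (V / 2) hV2 le_rfl {1} (fun k hk' => by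
      rw [Finset.mem_singleton] at hk'
      subst hk'
      exact ⟨le_rfl, by push_cast; linarith⟩) (fun _ => 1) X hXm n hn u h
      (fun i => (hu i).trans (by linarith)) hh0 (fun i => (hh1 i).trans (by linarith))
    have h5 : w1 {1} (fun _ => (1 : ℂ)) = 1 := by
      unfold w1
      simp
    rw [h5, mul_one] at h4
    simp only [RP_one, norm_one, one_pow, mul_one] at h4
    have h6 : ∑ s ∈ X, (analyticOrderNatAt riemannZeta s : ℝ) *
        ∏ i, ((winT T (h i) (s.im + u i)).card : ℝ) ≤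
        ∑ s ∈ X, (analyticOrderNatAt riemannZeta s : ℝ) * ∏ i, (nz (h i) (s.im + u i) : ℝ) := by
      refine Finset.sum_le_sum fun s hs => mul_le_mul_of_nonneg_left ?_ (Nat.cast_nonneg _)
      obtain ⟨g1, g2, g3, g4, g5⟩ := hXm s hs
      refine Finset.prod_le_prod (fun _ _ => Nat.cast_nonneg _) fun i _ => card_winT ?_
      have := abs_le.1 (hu i)
      have := hh1 i
      linarith
    have h7 : (∏ i, (C * (1 + h i * Real.log V + Mk n))) ≤ B := by
      refine Finset.prod_le_prod (fun i _ => ?_) fun i _ => ?_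
      · have := mul_nonneg (hh0 i) hLV
        exact mul_nonneg (by linarith) (by linarith)
      · have := mul_le_mul_of_nonneg_left hL (hh0 i)
        exact mul_le_mul_of_nonneg_left (by linarith) (by linarith)
    have h8 : (∏ i, (C * (1 + h i * Real.log V + Mk n))) * (V / 2 * Real.log V) ≤
        B * (V / 2 * Real.log V) := mul_le_mul_of_nonneg_right h7 (by positivity)
    linarith
  have key : ∀ m : ℕ, ∀ V : ℝ, 2 ≤ V → V ≤ T → V ≤ (3 / 2) ^ (m + 1) * V0 →
      FF T u h V ≤ FF T u h (V0 + V0 / 2) + B * (V * Real.log V) := by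
    intro m
    induction m with
    | zero =>
      intro V hV2 hVT hV
      have h1 : V ≤ V0 + V0 / 2 := by
        rw [zero_add, pow_one] at hV
        linarith
      have h2 : 0 ≤ B * (V * Real.log V) := by
        have := Real.log_nonneg (show 1 ≤ V by linarith)
        exact mul_nonneg hB0 (mul_nonneg (by linarith) this)
      linarith [FF_mono T u h h1]
    | succ m ih =>
      intro V hV2 hVT hV
      by_cases h' : V ≤ V0 + V0 / 2
      · have h2 : 0 ≤ B * (V * Real.log V) := by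
          have := Real.log_nonneg (show 1 ≤ V by linarith)
          exact mul_nonneg hB0 (mul_nonneg (by linarith) this)
        linarith [FF_mono T u h h']
      · push Not at h'
        set V' := 2 / 3 * V with hV'
        have hV1 : V0 ≤ V' := by rw [hV']; linarith
        have hV2' : V' ≤ (3 / 2) ^ (m + 1) * V0 := by
          rw [hV']
          have : (3 / 2 : ℝ) ^ (m + 1 + 1) * V0 = 3 / 2 * ((3 / 2) ^ (m + 1) * V0) := by ring
          rw [this] at hV
          linarith
        have h3 := ih V' (by linarith) (by rw [hV']; linarith) hV2'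
        have h4 := hstep V' hV1 (by rw [hV']; linarith)
        have e : V' + V' / 2 = V := by rw [hV']; ring
        rw [e] at h4
        have hlog : Real.log V' ≤ Real.log V :=
          Real.log_le_log (by linarith) (by rw [hV']; linarith)
        have hlog0 : 0 ≤ Real.log V' := Real.log_nonneg (by linarith)
        have h5 : B * (V' * Real.log V') + B * (V' / 2 * Real.log V') =
            B * (V * Real.log V') := by
          rw [← e]
          ring
        have h6 : B * (V * Real.log V') ≤ B * (V * Real.log V) :=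
          mul_le_mul_of_nonneg_left (mul_le_mul_of_nonneg_left hlog (by linarith)) hB0
        linarith
  obtain ⟨m, hm⟩ := pow_unbounded_of_one_lt (T / V0) (show (1 : ℝ) < 3 / 2 by norm_num)
  refine key m T hT le_rfl ?_
  rw [div_lt_iff₀ (by linarith)] at hm
  refine hm.le.trans ?_
  have : (3 / 2 : ℝ) ^ m ≤ (3 / 2) ^ (m + 1) := pow_le_pow_right₀ (by norm_num) (Nat.le_succ m)
  have hV0p : 0 < V0 := by linarith
  gcongr

/-- **the numbers of k-tuples up to height `T`** -/
theorem tup3 (hRH : RiemannHypothesis) : ∃ C : ℝ, 1 ≤ C ∧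
    ∀ T : ℝ, 2 ≤ T → ∀ n : ℕ, 1 ≤ n →
    ∀ x y : Fin n → ℝ, (∀ i, x i ≤ y i) → (∀ i, |x i| ≤ Real.log T) →
    (∀ i, |y i| ≤ Real.log T) →
    ∀ F : Set (Fin (n + 1) → ℝ × ℕ), (∀ f ∈ F, (∀ i, f i ∈ idx) ∧ (∀ i, (f i).1 ≤ T) ∧
      ∀ i : Fin n,
      x i ≤ ((f i.castSucc).1 - (f (Fin.last n)).1) * (Real.log T / (2 * Real.pi)) ∧
      ((f i.castSucc).1 - (f (Fin.last n)).1) * (Real.log T / (2 * Real.pi)) ≤ y i) →
    F.Finite ∧ (F.ncard : ℝ) ≤ (∏ i, (C * (1 + (y i - x i) + Mk n))) * (T * Real.log T) := by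
  classical
  obtain ⟨C, V1, hC, hV1, hk⟩ := FF_all hRH
  set C1 : ℝ := (∑ s ∈ (zeta_zeros_finite (V1 + 13)).toFinset,
    (analyticOrderNatAt riemannZeta s : ℝ)) + 1 with hC1
  have hC1' : 1 ≤ C1 := by
    have : 0 ≤ ∑ s ∈ (zeta_zeros_finite (V1 + 13)).toFinset,
      (analyticOrderNatAt riemannZeta s : ℝ) := Finset.sum_nonneg fun _ _ => Nat.cast_nonneg _
    linarith
  refine ⟨C1 ^ 2 + 4 * C, by nlinarith, fun T hT n hn x y hxy hx hy F hF => ?_⟩
  have hL : 0 < Real.log T := Real.log_pos (by linarith)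
  have hpi := Real.pi_pos
  have hpi2 := Real.pi_lt_d2
  have hM := Mk_pos hn
  set u : Fin n → ℝ := fun i => Real.pi * (x i + y i) / Real.log T with hu
  set h : Fin n → ℝ := fun i => Real.pi * (y i - x i) / Real.log T with hh
  have hu1 : ∀ i, |u i| ≤ 6.3 := fun i => by
    have h1 := abs_le.1 (hx i)
    have h2 := abs_le.1 (hy i)
    simp only [hu]
    rw [abs_div, abs_of_pos hL, div_le_iff₀ hL, abs_mul, abs_of_pos hpi]
    have h3 : |x i + y i| ≤ 2 * Real.log T := abs_le.2 ⟨by linarith, by linarith⟩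
    have h4 : Real.pi * |x i + y i| ≤ 3.15 * (2 * Real.log T) := by gcongr
    linarith
  have hh0 : ∀ i, 0 ≤ h i := fun i => by
    have h0 : 0 ≤ y i - x i := by linarith [hxy i]
    exact div_nonneg (mul_nonneg hpi.le h0) hL.le
  have hh1 : ∀ i, h i ≤ 6.3 := fun i => by
    have h1 := abs_le.1 (hx i)
    have h2 := abs_le.1 (hy i)
    have h0 := hxy i
    simp only [hh]
    rw [div_le_iff₀ hL]
    have h3 : y i - x i ≤ 2 * Real.log T := by linarith
    have h4 : Real.pi * (y i - x i) ≤ 3.15 * (2 * Real.log T) := by gcongr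
    linarith
  set A := idxF (zeta_zeros_finite T).toFinset with hA
  obtain ⟨g1, g2⟩ := tuple_sum A (fun i t => winT T (h i) (t + u i)) (fun _ => 1)
    (fun _ => zero_le_one) F (fun f hf => by
      obtain ⟨p1, p2, p4⟩ := hF f hf
      constructor
      · refine mem_idxF (p1 _).2.1 (p1 _).2.2 ?_
        rw [Set.Finite.mem_toFinset]
        exact ⟨by norm_num, by norm_num, (p1 _).1, p2 _, Z_half.1 (p1 _).2.1⟩
      · intro i
        refine mem_winT (p1 _).1 (p2 _) (p1 _).2.1 (p1 _).2.2 ?_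
        have := box_win hL (p4 i).1 (p4 i).2
        rw [← sub_sub]
        exact this)
  refine ⟨g1, ?_⟩
  have e1 : (F.ncard : ℝ) = ∑ᶠ f ∈ F, (1 : ℝ) := by
    rw [finsum_mem_eq_finite_toFinset_sum _ g1, Set.ncard_eq_toFinset_card _ g1]
    simp
  rw [e1]
  refine g2.trans ?_
  have e2 : ∑ a ∈ A, (1 : ℝ) * ∏ i, ((winT T (h i) (a.1 + u i)).card : ℝ) ≤ FF T u h T := by
    unfold FF
    simp only [one_mul]
    exact sum_idxF _ (fun t => ∏ i, ((winT T (h i) (t + u i)).card : ℝ))
      fun _ => Finset.prod_nonneg fun _ _ => Nat.cast_nonneg _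
  refine e2.trans ((hk T hT n hn u h hu1 hh0 hh1).trans ?_)
  have e3 : FF T u h V1 ≤ (C1 ^ 2) ^ n := by
    have h1 : ∀ s ∈ (zeta_zeros_finite V1).toFinset,
        ∏ i, ((winT T (h i) (s.im + u i)).card : ℝ) ≤ C1 ^ n := fun s hs => by
      rw [Set.Finite.mem_toFinset] at hs
      have h2 : ∀ i ∈ (Finset.univ : Finset (Fin n)),
          ((winT T (h i) (s.im + u i)).card : ℝ) ≤ C1 := fun i _ => by
        have := abs_le.1 (hu1 i)
        have := hh1 i
        have h3 := card_winT2 (T := T) (h := h i) (c := s.im + u i) (V := V1 + 13)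
          (by have := hs.2.2.2.1
              linarith)
        linarith
      calc ∏ i, ((winT T (h i) (s.im + u i)).card : ℝ) ≤ ∏ _i : Fin n, C1 :=
            Finset.prod_le_prod (fun _ _ => Nat.cast_nonneg _) h2
        _ = _ := by simp
    have h3 : ∑ s ∈ (zeta_zeros_finite V1).toFinset, (analyticOrderNatAt riemannZeta s : ℝ) ≤
        C1 := by
      have : ∑ s ∈ (zeta_zeros_finite V1).toFinset, (analyticOrderNatAt riemannZeta s : ℝ) ≤
          ∑ s ∈ (zeta_zeros_finite (V1 + 13)).toFinset,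
            (analyticOrderNatAt riemannZeta s : ℝ) := by
        refine Finset.sum_le_sum_of_subset_of_nonneg (fun s hs => ?_) fun _ _ _ =>
          Nat.cast_nonneg _
        rw [Set.Finite.mem_toFinset] at hs ⊢
        obtain ⟨g1, g2, g3, g4, g5⟩ := hs
        exact ⟨g1, g2, g3, by linarith, g5⟩
      linarith
    unfold FF
    calc ∑ s ∈ (zeta_zeros_finite V1).toFinset, (analyticOrderNatAt riemannZeta s : ℝ) *
          ∏ i, ((winT T (h i) (s.im + u i)).card : ℝ)
        ≤ ∑ s ∈ (zeta_zeros_finite V1).toFinset, (analyticOrderNatAt riemannZeta s : ℝ) *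
          C1 ^ n := Finset.sum_le_sum fun s hs =>
            mul_le_mul_of_nonneg_left (h1 s hs) (Nat.cast_nonneg _)
      _ = (∑ s ∈ (zeta_zeros_finite V1).toFinset, (analyticOrderNatAt riemannZeta s : ℝ)) *
          C1 ^ n := by rw [Finset.sum_mul]
      _ ≤ C1 * C1 ^ n := by gcongr
      _ ≤ C1 ^ n * C1 ^ n := by
          have : C1 ≤ C1 ^ n := by
            calc C1 = C1 ^ 1 := (pow_one _).symm
              _ ≤ C1 ^ n := pow_le_pow_right₀ hC1' hn
          gcongr
      _ = _ := by rw [← mul_pow]; ring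
  have hTL : 1 ≤ T * Real.log T := by
    have h6 := Real.log_le_log (by norm_num) hT
    have h7 := Real.log_two_gt_d9
    nlinarith
  have e4 : (C1 ^ 2) ^ n ≤ (∏ _i : Fin n, C1 ^ 2) * (T * Real.log T) := by
    rw [Finset.prod_const, Finset.card_univ, Fintype.card_fin]
    have : 0 ≤ (C1 ^ 2) ^ n := by positivity
    nlinarith
  have e5 : (∏ i, (C * (1 + h i * Real.log T + Mk n))) ≤
      ∏ i, (4 * C * (1 + (y i - x i) + Mk n)) := by
    refine Finset.prod_le_prod (fun i _ => ?_) fun i _ => ?_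
    · have := mul_nonneg (hh0 i) hL.le
      exact mul_nonneg (by linarith) (by linarith)
    · have e : h i * Real.log T = Real.pi * (y i - x i) := div_mul_cancel₀ _ hL.ne'
      rw [e]
      have h1 : 0 ≤ y i - x i := by linarith [hxy i]
      have h2 : Real.pi * (y i - x i) ≤ 4 * (y i - x i) := by
        have : Real.pi ≤ 4 := by linarith
        gcongr
      calc C * (1 + Real.pi * (y i - x i) + Mk n) ≤ C * (4 * (1 + (y i - x i) + Mk n)) :=
            mul_le_mul_of_nonneg_left (by linarith) (by linarith)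
        _ = _ := by ring
  have e6 : (∏ _i : Fin n, C1 ^ 2) + ∏ i, (4 * C * (1 + (y i - x i) + Mk n)) ≤
      ∏ i, ((C1 ^ 2 + 4 * C) * (1 + (y i - x i) + Mk n)) := by
    have q : ∀ i : Fin n, 0 ≤ y i - x i := fun i => by linarith [hxy i]
    have q1 : 0 < C1 ^ 2 := by positivity
    refine Finset.prod_add_prod_le (i := (⟨0, hn⟩ : Fin n)) (Finset.mem_univ _) ?_ ?_ ?_ ?_ ?_
    · have := q ⟨0, hn⟩
      nlinarith
    · intro j _ _
      have := q j
      nlinarith
    · intro j _ _
      have := q j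
      nlinarith
    · intro j _
      exact q1.le
    · intro j _
      have := q j
      exact mul_nonneg (by linarith) (by linarith)
  calc FF T u h V1 + (∏ i, (C * (1 + h i * Real.log T + Mk n))) * (T * Real.log T)
      ≤ (∏ _i : Fin n, C1 ^ 2) * (T * Real.log T) +
        (∏ i, (4 * C * (1 + (y i - x i) + Mk n))) * (T * Real.log T) :=
        add_le_add (e3.trans e4) (mul_le_mul_of_nonneg_right e5 (by linarith))
    _ = ((∏ _i : Fin n, C1 ^ 2) + ∏ i, (4 * C * (1 + (y i - x i) + Mk n))) *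
        (T * Real.log T) := by ring
    _ ≤ _ := mul_le_mul_of_nonneg_right e6 (by linarith)

end Pool.Agent.J4.H45.KL
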