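import Pool.Agent.J4.H45.KL.Tup

/-!
# Tuples of zeros over Bohr sets
-/

open Complex Filter Topology Set MeasureTheory
open scoped BigOperators ComplexConjugate

namespace Pool.Agent.J4.H45.KL

open H370 Pool.Agent.N802 Pool.Agent.N802.U Pool.Agent.J4.H45.MT
open Pool.Agent.W54.TCF (Z mlt)
open Pool.Agent.J4.H50.Kr (co R_eq norm_co nn nn_one geo_near)

lemma norm_it (p : ℕ) (hp : 0 < p) (t : ℝ) : ‖(p : ℂ) ^ (-(I * t))‖ = 1 := by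
  rw [Complex.norm_natCast_cpow_of_pos hp]
  simp

lemma dist_it (z : ℕ → ℂ) (p : ℕ) (hp : 0 < p) (t : ℝ) :
    ‖z p * (p : ℂ) ^ (-(I * t)) - 1‖ = ‖(p : ℂ) ^ (I * t) - z p‖ := by
  have h0 : (p : ℂ) ≠ 0 := by exact_mod_cast hp.ne'
  have h5 : z p * (p : ℂ) ^ (-(I * t)) - 1 =
      -(((p : ℂ) ^ (I * t) - z p) * (p : ℂ) ^ (-(I * t))) := by
    rw [sub_mul, ← Complex.cpow_add _ _ h0]
    simp
  rw [h5, norm_neg, norm_mul, norm_it p hp t, mul_one]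

/-- a polynomial that is large on a Bohr set -/
lemma bohr (P : Finset ℕ) (hP : ∀ p ∈ P, p.Prime) (e : ℕ → ℝ) (he : ∀ p ∈ P, 0 < e p ∧ e p ≤ 1)
    (z : ℕ → ℂ) (hz : ∀ p, ‖z p‖ = 1) {T : ℝ} (hT : 1 ≤ T)
    (hlen : ∑ p ∈ P, Real.log p / e p ≤ 1 / 64 * Real.log T) :
    ∃ (S : Finset ℕ) (r : ℕ → ℂ) (G : ℝ), Len S (T ^ (1 / 64 : ℝ)) ∧ 0 < G ∧
      w1 S r ≤ G * ∏ p ∈ P, (8 * e p) ∧
      ∀ t : ℝ, (∀ p ∈ P, ‖(p : ℂ) ^ (I * t) - z p‖ ≤ e p) → G ≤ ‖RP S r t‖ ^ 2 := by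
  classical
  set J : ℕ → ℕ := fun p => ⌊1 / e p⌋₊ with hJ
  have hJ0 : ∀ p ∈ P, 1 ≤ J p ∧ ((J p - 1 : ℕ) : ℝ) ≤ 1 / e p ∧ e p * J p ≤ 1 ∧
      1 ≤ 2 * (e p * J p) := by
    intro p hp
    obtain ⟨he0, he1⟩ := he p hp
    have h1e : 1 ≤ 1 / e p := by
      rw [le_div_iff₀ he0]
      linarith
    have hJ1 : (J p : ℝ) ≤ 1 / e p := Nat.floor_le (by positivity)
    have hJ2 : 1 / e p < J p + 1 := Nat.lt_floor_add_one _
    have hJpos : 1 ≤ J p := Nat.le_floor (by push_cast; exact h1e)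
    have hJr : (1 : ℝ) ≤ J p := by exact_mod_cast hJpos
    refine ⟨hJpos, ?_, ?_, ?_⟩
    · rw [Nat.cast_sub hJpos]
      push_cast
      linarith
    · rw [le_div_iff₀ he0] at hJ1
      linarith
    · rw [div_lt_iff₀ he0] at hJ2
      nlinarith
  set D : ℕ := ∏ p ∈ P, p ^ (1 * (J p - 1)) with hD
  have hD0 : D ≠ 0 := Finset.prod_ne_zero_iff.2 fun p hp => pow_ne_zero _ (hP p hp).ne_zero
  have hDT : (D : ℝ) ≤ T ^ (1 / 64 : ℝ) := by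
    have h1 : (D : ℝ) = Real.exp (∑ p ∈ P, ((J p - 1 : ℕ) : ℝ) * Real.log p) := by
      rw [hD, Real.exp_sum]
      push_cast
      refine Finset.prod_congr rfl fun p hp => ?_
      rw [one_mul, Real.exp_nat_mul, Real.exp_log (by exact_mod_cast (hP p hp).pos)]
    rw [h1, Real.rpow_def_of_pos (by linarith)]
    apply Real.exp_le_exp.2
    refine le_trans (Finset.sum_le_sum fun p hp => ?_) (hlen.trans (le_of_eq (mul_comm _ _)))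
    calc ((J p - 1 : ℕ) : ℝ) * Real.log p ≤ 1 / e p * Real.log p :=
          mul_le_mul_of_nonneg_right (hJ0 p hp).2.1 (Real.log_natCast_nonneg _)
      _ = _ := by ring
  set G : ℝ := ∏ p ∈ P, ((J p : ℝ) / 2) ^ 2 with hG
  have hS : ∀ n ∈ D.divisors, 1 ≤ n ∧ (n : ℝ) ≤ T ^ (1 / 64 : ℝ) := fun n hn => by
    refine ⟨Nat.pos_of_mem_divisors hn, le_trans ?_ hDT⟩
    exact_mod_cast Nat.le_of_dvd (Nat.pos_of_ne_zero hD0) (Nat.dvd_of_mem_divisors hn)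
  refine ⟨D.divisors, co P J (fun _ => 1) z, G, hS, ?_, ?_, ?_⟩
  · exact Finset.prod_pos fun p hp => by
      have h1 : (0 : ℝ) < J p := by exact_mod_cast (hJ0 p hp).1
      positivity
  · unfold w1
    rw [hD, norm_co P hP J (fun _ => 1) z hz, hG, ← Finset.prod_mul_distrib]
    refine Finset.prod_le_prod (fun p hp => ?_) fun p hp => ?_
    · rw [nn_one _ (hJ0 p hp).1]
      exact Nat.cast_nonneg _
    · rw [nn_one _ (hJ0 p hp).1]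
      have h9 := (hJ0 p hp).2.2.2
      have h10 : (0 : ℝ) ≤ J p := Nat.cast_nonneg _
      nlinarith
  · intro t ht
    rw [← RP_eq hS, hD, R_eq P hP J (fun _ => 1) z, norm_prod, ← Finset.prod_pow, hG]
    refine Finset.prod_le_prod (fun p _ => by positivity) fun p hp => ?_
    rw [pow_one]
    refine pow_le_pow_left₀ (by positivity) ?_ 2
    have hp0 := (hP p hp).pos
    refine geo_near _ (hJ0 p hp).1 _ ?_ (e p) (hJ0 p hp).2.2.1 ?_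
    · rw [norm_mul, hz, norm_it p hp0, one_mul]
    · rw [dist_it z p hp0 t]
      exact ht p hp

/-- **k-tuples of zeros in Bohr sets** -/
theorem tup2 (hRH : RiemannHypothesis) : ∃ C T0 : ℝ, 1 ≤ C ∧ 128 ≤ T0 ∧
    ∀ T : ℝ, T0 ≤ T → ∀ K : ℝ, T ^ (1 - 1 / 64 : ℝ) ≤ K → K ≤ T / 2 →
    ∀ n : ℕ, 1 ≤ n →
    ∀ x y : Fin n → ℝ, (∀ i, x i ≤ y i) → (∀ i, |x i| ≤ T * Real.log T / 160) →
    (∀ i, |y i| ≤ T * Real.log T / 160) →
    ∀ P : Finset ℕ, (∀ p ∈ P, p.Prime) → ∀ e : ℕ → ℝ, (∀ p ∈ P, 0 < e p ∧ e p ≤ 1) →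
    ∑ p ∈ P, Real.log p / e p ≤ 1 / 64 * Real.log T → ∀ z : ℕ → ℂ, (∀ p, ‖z p‖ = 1) →
    ∀ F : Set (Fin (n + 1) → ℝ × ℕ), (∀ f ∈ F, (∀ i, f i ∈ idx) ∧ T < (f (Fin.last n)).1 ∧
      (f (Fin.last n)).1 ≤ T + K ∧ (∀ i : Fin n,
      x i ≤ ((f i.castSucc).1 - (f (Fin.last n)).1) * (Real.log T / (2 * Real.pi)) ∧
      ((f i.castSucc).1 - (f (Fin.last n)).1) * (Real.log T / (2 * Real.pi)) ≤ y i) ∧
      ∀ p ∈ P, ‖(p : ℂ) ^ (I * ((f (Fin.last n)).1 : ℂ)) - z p‖ ≤ e p) →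
    F.Finite ∧ (F.ncard : ℝ) ≤
      (∏ i, (C * (1 + (y i - x i) + Mk n))) * (K * Real.log T * ∏ p ∈ P, (8 * e p)) := by
  classical
  obtain ⟨C, T0, hC, hT0, hk⟩ := tup1 hRH
  refine ⟨C, T0, hC, hT0, fun T hT K hK1 hK2 n hn x y hxy hx hy P hP e he hlen z hz F hF => ?_⟩
  have hT1 : 1 ≤ T := by linarith
  have hL : 0 ≤ Real.log T := Real.log_nonneg hT1
  have hK0 : 0 ≤ K := le_trans (by positivity) hK1
  obtain ⟨S, r, G, hS, hG0, hG1, hG2⟩ := bohr P hP e he z hz hT1 hlen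
  obtain ⟨q1, q2⟩ := hk T hT K hK1 hK2 S hS r n hn x y hxy hx hy F (fun f hf => by
    obtain ⟨p1, p2, p3, p4, p5⟩ := hF f hf
    exact ⟨p1, p2, p3, p4⟩)
  refine ⟨q1, ?_⟩
  have hprod : 0 ≤ ∏ i, (C * (1 + (y i - x i) + Mk n)) := Finset.prod_nonneg fun i _ => by
    have h1 := hxy i
    have h2 := Mk_pos hn
    exact mul_nonneg (by linarith) (by linarith)
  have h3 : G * F.ncard ≤ ∑ᶠ f ∈ F, ‖RP S r (f (Fin.last n)).1‖ ^ 2 := by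
    rw [finsum_mem_eq_finite_toFinset_sum _ q1, Set.ncard_eq_toFinset_card _ q1, mul_comm,
      ← nsmul_eq_mul, ← Finset.sum_const]
    refine Finset.sum_le_sum fun f hf => ?_
    rw [Set.Finite.mem_toFinset] at hf
    exact hG2 _ (hF f hf).2.2.2.2
  refine le_of_mul_le_mul_left ?_ hG0
  calc G * F.ncard ≤ _ := h3
    _ ≤ _ := q2
    _ ≤ (∏ i, (C * (1 + (y i - x i) + Mk n))) * (K * Real.log T * (G * ∏ p ∈ P, (8 * e p))) := by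
        gcongr
    _ = _ := by ring

end Pool.Agent.J4.H45.KL
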