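import Pool.Agent.J4.H45.MT.Point

/-!
# The number of zeros in a window of any length near a point, under the Riemann hypothesis
-/

open Complex Filter Topology Set MeasureTheory
open scoped BigOperators ComplexConjugate

namespace Pool.Agent.J4.H45.KL

open H370 Pool.Agent.N802 Pool.Agent.N802.U Pool.Agent.J4.H45.MT

/-- **the number of zeros in a window near a point** -/
theorem point2 {F : ℂ → ℂ} (hF : GoodL F) (hef : S_ef F) (hch : S_ch)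
    (hRH : ∀ s, 0 < s.re → s.re < 1 → F s = 0 → 0 < s.im → s.re = 1 / 2) :
    ∃ C T0 : ℝ, 1 ≤ C ∧ 10 ≤ T0 ∧ ∀ T : ℝ, T0 ≤ T →
    ∃ U1 U2 : ℝ, T ≤ U1 ∧ U1 ≤ T + 1 ∧ 2 * T - 1 ≤ U2 ∧ U2 ≤ 2 * T ∧
    (∀ h : ℝ, h ≤ 1 → ∀ t, na F U1 U2 h t ≤ C * Real.log T) ∧
    ∀ ℓ : ℝ, 1 ≤ ℓ → ℓ ≤ 3 / 4 * Real.log T → ∃ (P : Finset ℕ) (b : ℕ → ℂ),
    (∀ p ∈ P, p.Prime ∧ (p : ℝ) ≤ Real.exp (2 * ℓ)) ∧
    ∑ p ∈ P, ‖b p‖ ^ 2 / Real.log p ≤ C / ℓ ∧
    ∀ h : ℝ, h ≤ 1 → ℓ * h ≤ 3 / 2 →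
    ∀ t : ℝ, T + Real.log T ≤ t → t ≤ 2 * T - Real.log T →
    na F U1 U2 h t ≤ C * (Real.log T / ℓ + ‖RP P b t‖) := by
  classical
  obtain ⟨a, C1, ha, hC1, hef⟩ := hef
  obtain ⟨T1, hT1, hef⟩ := hef (1 / 8) (by norm_num) (by norm_num)
  obtain ⟨C2, hC2, hps⟩ := prime_side hch
  obtain ⟨C3, hC3, hgc⟩ := gauss_count hF
  set C : ℝ := 60 * (1 + C1 + C2 + C3) + 24 * 60 with hCd
  refine ⟨C, max T1 8, by linarith, hT1.trans (le_max_left _ _), fun T hT => ?_⟩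
  have hT1' : T1 ≤ T := (le_max_left _ _).trans hT
  have hT8 : 8 ≤ T := (le_max_right _ _).trans hT
  obtain ⟨U1, U2, hU1, hU1', hU2', hU2, hef⟩ := hef T hT1'
  have hU : 1 ≤ U1 := by linarith
  set L := Real.log T with hL
  have hL2 : 2 ≤ L := by
    rw [hL, Real.le_log_iff_exp_le (by linarith)]
    have h1 := Real.exp_one_lt_d9
    have h2 : Real.exp 2 = Real.exp 1 ^ 2 := by
      rw [← Real.exp_nat_mul]; norm_num
    rw [h2]
    nlinarith [Real.exp_pos 1]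
  have hL0 : 0 < L := by linarith
  refine ⟨U1, U2, hU1, hU1', hU2', hU2, ?_, fun ℓ hℓ1 hℓL => ?_⟩
  · intro h hh1 t
    have h1 := hgc T (by linarith) U1 U2 hU1 hU2 t
    have h2 : na F U1 U2 h t ≤
        2 * ∑ s ∈ Zf F U1 U2, (mult F s : ℝ) * Real.exp (-(s.im - t) ^ 2 / 4) := by
      rw [na_eq, Finset.mul_sum]
      refine Finset.sum_le_sum fun s _ => ?_
      have hm : (0 : ℝ) ≤ mult F s := Nat.cast_nonneg _
      split_ifs with h3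
      · have h4 : (s.im - t) ^ 2 ≤ 1 := by
          rw [← sq_abs]
          have := h3.trans hh1
          nlinarith [abs_nonneg (s.im - t)]
        have h5 : 1 / 2 ≤ Real.exp (-(s.im - t) ^ 2 / 4) := by
          have := Real.add_one_le_exp (-(s.im - t) ^ 2 / 4)
          linarith
        nlinarith
      · positivity
    refine h2.trans ?_
    have : C3 ≤ C / 2 := by rw [hCd]; linarith
    nlinarith
  · have hℓ0 : 0 < ℓ := by linarith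
    obtain ⟨hB, hPD⟩ := hps a ha ⌊T ^ (1 - (1 / 8 : ℝ))⌋₊ ℓ hℓ0
    refine ⟨Pm ⌊T ^ (1 - (1 / 8 : ℝ))⌋₊ ℓ, bn a ℓ, fun p hp => Pm_spec hp, ?_, ?_⟩
    · refine hB.trans ?_
      have : C2 ≤ C := by rw [hCd]; linarith
      gcongr
    · intro h hh1 hh t ht1 ht2
      have h1 := hef ℓ (Wl ℓ) (wl ℓ) (bw_wl hℓ0) 0 t (by
        rw [abs_zero, zero_add]
        norm_num
        linarith) ht1 ht2
      have h2 := hPD L t hL0.le
      have h3 := SS_low hF (U2 := U2) hU hℓ1 hh1 hh t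
      rw [FS_zero hF hU hRH, mul_zero, add_zero] at h3
      have h4 := hgc T (by linarith) U1 U2 hU1 hU2 t
      have h5 : ‖cexp (I * ((0 : ℝ) : ℂ) * (t : ℂ)) *
          PD a ⌊T ^ (1 - (1 / 8 : ℝ))⌋₊ (wl ℓ) L 0 t‖ =
          ‖PD a ⌊T ^ (1 - (1 / 8 : ℝ))⌋₊ (wl ℓ) L 0 t‖ := by
        rw [Complex.ofReal_zero, mul_zero, zero_mul, Complex.exp_zero, one_mul]
      have h6 : ‖SS F U1 U2 (Wl ℓ) 0 t‖ ≤ ‖PD a ⌊T ^ (1 - (1 / 8 : ℝ))⌋₊ (wl ℓ) L 0 t‖ +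
          C1 * Real.sqrt (q2 (wl ℓ)) := by
        have := norm_sub_norm_le (SS F U1 U2 (Wl ℓ) 0 t) (cexp (I * ((0 : ℝ) : ℂ) * (t : ℂ)) *
          PD a ⌊T ^ (1 - (1 / 8 : ℝ))⌋₊ (wl ℓ) L 0 t)
        rw [h5] at this
        linarith
      have h7 : Real.sqrt (q2 (wl ℓ)) ≤ 1 := by
        rw [Real.sqrt_le_one]
        refine (q2_wl hℓ0).trans ?_
        rw [div_le_one hℓ0]
        exact hℓ1
      have h8 : 1 / ℓ ^ 2 * (∑ s ∈ Zf F U1 U2, (mult F s : ℝ) *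
          Real.exp (-(s.im - t) ^ 2 / 4)) ≤ C3 * (L / ℓ) := by
        calc _ ≤ 1 / ℓ ^ 2 * (C3 * L) := by gcongr
          _ ≤ 1 / ℓ * (C3 * L) := by
              have : 1 / ℓ ^ 2 ≤ 1 / ℓ := by
                apply one_div_le_one_div_of_le hℓ0
                nlinarith
              gcongr
          _ = _ := by ring
      have h9 : 1 ≤ L / ℓ := by
        rw [le_div_iff₀ hℓ0]
        linarith
      have hR := norm_nonneg (RP (Pm ⌊T ^ (1 - (1 / 8 : ℝ))⌋₊ ℓ) (bn a ℓ) t)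
      set RR := ‖RP (Pm ⌊T ^ (1 - (1 / 8 : ℝ))⌋₊ ℓ) (bn a ℓ) t‖
      set q := L / ℓ
      have h10 : 0.018 * na F U1 U2 h t ≤ (1 + C1 + C2 + C3) * q + 2 * RR := by
        have : C1 * Real.sqrt (q2 (wl ℓ)) ≤ C1 * 1 := by gcongr
        nlinarith
      rw [hCd]
      nlinarith

end Pool.Agent.J4.H45.KL
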