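import Pool.Agent.J4.H45.MT.Core
import Pool.Agent.J4.H45.KL.Point2

/-!
# Gaussian averages: zeros with many zeros in a window at a given distance
-/

open Complex Filter Topology Set MeasureTheory
open scoped BigOperators ComplexConjugate

namespace Pool.Agent.J4.H45.KL

open H370 Pool.Agent.N802 Pool.Agent.N802.U Pool.Agent.J4.H45.MT

/-- the coefficients of the shifted polynomial -/
noncomputable def sh (u : ℝ) (b : ℕ → ℂ) (k : ℕ) : ℂ := b k * mn k 1 u

lemma sh_norm (u : ℝ) (b : ℕ → ℂ) (k : ℕ) : ‖sh u b k‖ = ‖b k‖ := by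
  unfold sh
  rw [norm_mul, mn_norm, mul_one]

lemma RP_sh (P : Finset ℕ) (b : ℕ → ℂ) (u t : ℝ) : RP P (sh u b) t = RP P b (t + u) := by
  unfold RP TP sh
  refine Finset.sum_congr rfl fun k _ => ?_
  rw [mul_assoc]
  congr 1
  unfold mn
  rw [← Complex.exp_add]
  congr 1
  push_cast
  ring

/-- comparison of two windows -/
lemma na_cmp {F : ℂ → ℂ} (hF : GoodL F) {a b a' b' h h' t t' : ℝ} (ha : 1 ≤ a) (ha' : 1 ≤ a')
    (hh : |t - t'| + h ≤ h') (h1 : a' < t - h) (h2 : t + h ≤ b') :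
    na F a b h t ≤ na F a' b' h' t' := by
  classical
  unfold na
  refine Finset.sum_le_sum_of_subset_of_nonneg (fun s hs => ?_) fun s _ _ => Nat.cast_nonneg _
  rw [Finset.mem_filter] at hs ⊢
  rw [mem_Zf hF ha] at hs
  rw [mem_Zf hF ha']
  have h3 := abs_le.1 hs.2
  refine ⟨⟨hs.1.1, hs.1.2.1, by linarith, by linarith, hs.1.2.2.2.2⟩, ?_⟩
  have h4 := abs_sub_le s.im t t'
  linarith [hs.2]

/-- the inequality at one point -/
lemma alg2 {g N1 N2 j q x1 x2 C : ℝ} {k : ℕ} (hk : 1 ≤ k) (hC : 0 ≤ C) (hgN : g ≤ N1)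
    (hg : g ≠ 0 → j ≤ N2) (hN1 : N1 ≤ C * (q + x1)) (hN2 : g ≠ 0 → N2 ≤ C * (q + x2))
    (hq : 4 * C * q ≤ j) (hj : 0 < j) (hx1 : 0 ≤ x1) (hx2 : 0 ≤ x2) :
    g ≤ (3 * C * x1) ^ (2 * k) / j ^ (2 * k - 1) + (3 * C * x2) ^ (2 * k) / j ^ (2 * k - 1) := by
  have p1 : 0 ≤ (3 * C * x1) ^ (2 * k) / j ^ (2 * k - 1) := by positivity
  have p2 : 0 ≤ (3 * C * x2) ^ (2 * k) / j ^ (2 * k - 1) := by positivity
  by_cases h0 : g = 0
  · rw [h0]; linarith
  · rcases le_or_gt j N1 with h1 | h1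
    · have := alg (v := 0) hk hC hgN (fun _ => h1) (by rw [add_zero]; exact hN1) hq hj hx1 le_rfl
      simp only [mul_zero, add_zero] at this
      linarith
    · have h2 := hg h0
      have := alg (v := 0) (g := g) (N := N2) hk hC (by linarith) (fun _ => h2)
        (by rw [add_zero]; exact hN2 h0) hq hj hx2 le_rfl
      simp only [mul_zero, add_zero] at this
      linarith

/-- **the estimate for pairs of windows** -/
theorem core_pair {F : ℂ → ℂ} (hF : GoodL F) (hef : S_ef F) (hch : S_ch)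
    (hRH : ∀ s, 0 < s.re → s.re < 1 → F s = 0 → 0 < s.im → s.re = 1 / 2) :
    ∃ C T0 : ℝ, 1 ≤ C ∧ 30 ≤ T0 ∧ ∀ T : ℝ, T0 ≤ T →
    ∀ S : Finset ℕ, Len S (T ^ (1 / 16 : ℝ)) → ∀ (r : ℕ → ℂ) (τ H : ℝ), T ^ (7 / 8 : ℝ) ≤ H →
    ∀ Z : Finset ℂ, Z ⊆ Zf F T (2 * T) → ∀ u h j : ℝ, 0 ≤ h → h ≤ 1 / 2 → 0 < j →
    (∀ s ∈ Z, T + Real.log T + 1 ≤ s.im + u ∧ s.im + u ≤ 2 * T - Real.log T - 1) →
    (∀ s ∈ Z, j ≤ na F T (2 * T) h (s.im + u)) →
    (C * Real.log T < j →
      ∫ t in (T + Real.log T)..(2 * T - Real.log T), rh τ H S r t *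
        gz F Z (1 / Real.log T) t ≤ 0) ∧
    ∀ q : ℝ, 32 ≤ q → q ≤ Real.log T → h * Real.log T + 1 ≤ 3 / 2 * q →
    ∀ k : ℕ, 1 ≤ k → 32 * (k : ℝ) ≤ q → 4 * C * q ≤ j →
    ∫ t in (T + Real.log T)..(2 * T - Real.log T), rh τ H S r t *
        gz F Z (1 / Real.log T) t ≤ (4 * (j * (9 * C ^ 3 * q / j ^ 2) ^ k)) * mr H S r := by
  classical
  obtain ⟨C1, T1, hC1, hT1, hpt⟩ := point2 hF hef hch hRH
  obtain ⟨T2, hT2, hmom⟩ := moments
  set C : ℝ := C1 with hCd
  refine ⟨C, max (max T1 T2) 30, hC1, le_max_right _ _, fun T hT => ?_⟩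
  have hTT1 : T1 ≤ T := ((le_max_left _ _).trans (le_max_left _ _)).trans hT
  have hTT2 : T2 ≤ T := ((le_max_right _ _).trans (le_max_left _ _)).trans hT
  have hT30 : 30 ≤ T := (le_max_right _ _).trans hT
  have hTp : 0 < T := by linarith
  have hT1r : 1 ≤ T := by linarith
  obtain ⟨U1, U2, hU1, hU1', hU2', hU2, hcr, hpt⟩ := hpt T hTT1
  refine fun S hS r τ H hH Z hZ u h j hh0 hh1 hj hZu hjZ => ?_
  set L := Real.log T with hL
  have hL3 : 3 ≤ L := by
    rw [hL, Real.le_log_iff_exp_le hTp]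
    have h1 := Real.exp_one_lt_d9
    have h2 : Real.exp 3 = Real.exp 1 ^ 3 := by
      rw [← Real.exp_nat_mul]; norm_num
    rw [h2]
    calc Real.exp 1 ^ 3 ≤ 2.7182818286 ^ 3 := by gcongr
      _ ≤ T := by norm_num; linarith
  have hL0 : 0 < L := by linarith
  have hL3' : 1 / L ≤ 1 / 3 := one_div_le_one_div_of_le (by norm_num) hL3
  have hLp : 0 < 1 / L := by positivity
  have hab : T + L ≤ 2 * T - L := by
    have h1 : L ≤ T / 2 := by
      have h2 : Real.log T = 2 * Real.log (Real.sqrt T) := by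
        rw [Real.log_sqrt hTp.le]; ring
      have h3 := Real.log_le_sub_one_of_pos (Real.sqrt_pos.2 hTp)
      have h4 : Real.sqrt T ^ 2 = T := Real.sq_sqrt hTp.le
      have h5 : 4 ≤ Real.sqrt T := by
        apply Real.le_sqrt_of_sq_le
        linarith
      nlinarith
    linarith
  have hH0 : 0 < H := lt_of_lt_of_le (by positivity) hH
  have hρc := rh_cont τ H S r
  have hρ0 := rh_nonneg τ H S r
  have hw := w1_nonneg S r
  set M := mr H S r with hM
  have hM0 : 0 ≤ M := by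
    rw [hM]
    unfold mr
    positivity
  -- near a point of `Z`
  have hnear : ∀ t, gz F Z (1 / L) t ≠ 0 → T + L ≤ t + u ∧ t + u ≤ 2 * T - L ∧
      j ≤ na F U1 U2 (h + 1 / L) (t + u) := by
    intro t h0
    have h1 : ∃ s ∈ Z, |s.im - t| ≤ 1 / L := by
      by_contra hc
      push Not at hc
      apply h0
      unfold gz
      refine Finset.sum_eq_zero fun s hs => ?_
      rw [if_neg]
      rw [add_zero]
      have := hc s hs
      linarith
    obtain ⟨s, hs, hst⟩ := h1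
    have h2 := abs_le.1 hst
    obtain ⟨h3, h4⟩ := hZu s hs
    refine ⟨by linarith, by linarith, (hjZ s hs).trans (na_cmp hF hT1r (by linarith) ?_ ?_ ?_)⟩
    · have : s.im + u - (t + u) = s.im - t := by ring
      rw [this]
      linarith
    · linarith
    · linarith
  refine ⟨fun hjC => ?_, fun q hq32 hqL hhq k hk hkq hjq => ?_⟩
  · -- there are no such zeros
    have h1 : ∀ t ∈ Icc (T + L) (2 * T - L), rh τ H S r t * gz F Z (1 / L) t ≤ 0 := by
      intro t ht
      have h2 : gz F Z (1 / L) t = 0 := by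
        by_contra h0
        have h3 := (hnear t h0).2.2
        have h4 := hcr (h + 1 / L) (by linarith) (t + u)
        linarith
      rw [h2, mul_zero]
    have h2 := intervalIntegral.integral_mono_on hab (gz_int Z hρc _ _ _)
      (continuous_const.intervalIntegrable _ _) h1
    simpa using h2
  · have hq0 : 0 < q := by linarith
    set ℓ := L / q with hℓ
    have hℓ1 : 1 ≤ ℓ := by rw [hℓ, le_div_iff₀ hq0]; linarith
    have hℓ0 : 0 < ℓ := by linarith
    have hℓL : ℓ ≤ 3 / 4 * L := by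
      rw [hℓ, div_le_iff₀ hq0]
      nlinarith
    have hLq : L / ℓ = q := by
      rw [hℓ]; field_simp
    obtain ⟨P, b, hP, hB, hpt⟩ := hpt ℓ hℓ1 hℓL
    rw [hLq] at hpt
    have hY : 1 ≤ Real.exp (2 * ℓ) := Real.one_le_exp (by linarith)
    have hYk : Real.exp (2 * ℓ) ^ k ≤ T ^ (1 / 16 : ℝ) := by
      rw [← Real.exp_nat_mul, Real.rpow_def_of_pos hTp]
      apply Real.exp_le_exp.2
      rw [← hL]
      have h1 : ℓ * q = L := by rw [hℓ]; field_simp
      nlinarith
    have hmomk : ∀ b' : ℕ → ℂ, (∀ p, ‖b' p‖ = ‖b p‖) →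
        ∫ t in (T + L)..(2 * T - L), rh τ H S r t * ‖RP P b' t‖ ^ (2 * k) ≤
          2 * (C1 * q) ^ k * M := by
      intro b' hb'
      have hB' : ∑ p ∈ P, ‖b' p‖ ^ 2 / Real.log p ≤ C1 / ℓ := by
        simp_rw [hb']
        exact hB
      obtain ⟨g1, g2⟩ := hmom T hTT2 S hS r τ H hH P b' _ _ hY hP hB' k hYk
      rw [intervalIntegral.integral_of_le hab]
      refine (setIntegral_le_integral g1 (Eventually.of_forall fun t => ?_)).trans (g2.trans ?_)
      · have := hρ0 t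
        show 0 ≤ rh τ H S r t * ‖RP P b' t‖ ^ (2 * k)
        positivity
      · rw [show Real.log T * (C1 / ℓ) = C1 * q by rw [← hL, ← hLq]; ring]
    have hPc : ∀ b' : ℕ → ℂ, Continuous (fun t => RP P b' t) := fun b' => TP_cont _ _ _ _
    have hgi := gz_int (F := F) Z hρc (1 / L) (T + L) (2 * T - L)
    have hℓh : ℓ * (2 / L) ≤ 3 / 2 := by
      rw [hℓ]
      have : L / q * (2 / L) = 2 / q := by field_simp
      rw [this, div_le_iff₀ hq0]
      linarith
    have hℓh2 : ℓ * (h + 1 / L) ≤ 3 / 2 := by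
      rw [hℓ]
      have : L / q * (h + 1 / L) = (h * L + 1) / q := by field_simp
      rw [this, div_le_iff₀ hq0]
      linarith
    have h21 : 2 / L ≤ 1 := by
      rw [div_le_one hL0]
      linarith
    have h1 : ∀ t ∈ Icc (T + L) (2 * T - L), rh τ H S r t * gz F Z (1 / L) t ≤
        (3 * C) ^ (2 * k) / j ^ (2 * k - 1) * (rh τ H S r t * ‖RP P b t‖ ^ (2 * k)) +
        (3 * C) ^ (2 * k) / j ^ (2 * k - 1) *
          (rh τ H S r t * ‖RP P (sh u b) t‖ ^ (2 * k)) := by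
      intro t ht
      have hN1 := hpt (2 / L) h21 hℓh t ht.1 ht.2
      have h2 := alg2 (k := k) hk (by linarith : (0 : ℝ) ≤ C)
        (gz_le hF hT1r hL3 hU1 hU1' hU2' ht.1 ht.2 hZ)
        (fun h0 => (hnear t h0).2.2) hN1
        (fun h0 => hpt (h + 1 / L) (by linarith) hℓh2 (t + u) (hnear t h0).1 (hnear t h0).2.1)
        hjq hj (norm_nonneg _) (norm_nonneg _)
      have h3 := mul_le_mul_of_nonneg_left h2 (hρ0 t)
      refine h3.trans (le_of_eq ?_)
      rw [mul_pow, mul_pow, RP_sh]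
      ring
    have hi : ∀ b' : ℕ → ℂ, IntervalIntegrable (fun t => (3 * C) ^ (2 * k) / j ^ (2 * k - 1) *
        (rh τ H S r t * ‖RP P b' t‖ ^ (2 * k))) volume (T + L) (2 * T - L) := fun b' => by
      have := hPc b'
      exact (Continuous.intervalIntegrable (by fun_prop) _ _).const_mul _
    refine (intervalIntegral.integral_mono_on hab hgi ((hi b).add (hi (sh u b))) h1).trans ?_
    rw [intervalIntegral.integral_add (hi b) (hi (sh u b)),
      intervalIntegral.integral_const_mul, intervalIntegral.integral_const_mul]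
    have h8 : ∀ b' : ℕ → ℂ, (∀ p, ‖b' p‖ = ‖b p‖) → (3 * C) ^ (2 * k) / j ^ (2 * k - 1) *
        (∫ t in (T + L)..(2 * T - L), rh τ H S r t * ‖RP P b' t‖ ^ (2 * k)) ≤
        (3 * C) ^ (2 * k) / j ^ (2 * k - 1) * (2 * (C * q) ^ k * M) := by
      intro b' hb'
      have := hmomk b' hb'
      gcongr
    have h10 : (3 * C) ^ (2 * k) / j ^ (2 * k - 1) * (2 * (C * q) ^ k * M) =
        2 * (j * (9 * C ^ 3 * q / j ^ 2) ^ k) * M := by
      have e1 : (3 * C) ^ (2 * k) = (9 * C ^ 2) ^ k := by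
        rw [pow_mul]
        congr 1
        ring
      have e2 : j ^ (2 * k) = j ^ (2 * k - 1) * j := by
        rw [← pow_succ]
        congr 1
        omega
      have e3 : (9 * C ^ 3 * q / j ^ 2) ^ k = (9 * C ^ 2) ^ k * (C * q) ^ k / j ^ (2 * k) := by
        rw [div_pow, ← pow_mul, ← mul_pow]
        congr 2
        ring
      rw [e1, e3, e2]
      field_simp
    have h11 := h8 b (fun _ => rfl)
    have h12 := h8 (sh u b) (sh_norm u b)
    rw [h10] at h11 h12
    calc _ ≤ 2 * (j * (9 * C ^ 3 * q / j ^ 2) ^ k) * M +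
          2 * (j * (9 * C ^ 3 * q / j ^ 2) ^ k) * M := add_le_add h11 h12
      _ = _ := by ring

end Pool.Agent.J4.H45.KL
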