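import Pool.Agent.J4.H45.KL.Mom

/-!
# Long windows
-/

open Complex Filter Topology Set MeasureTheory
open scoped BigOperators ComplexConjugate

namespace Pool.Agent.J4.H45.KL

open H370 Pool.Agent.N802 Pool.Agent.N802.U Pool.Agent.J4.H45.MT

/-- the number of zeros in windows of any length -/
lemma nz_det : ∃ C : ℝ, 1 ≤ C ∧ ∀ T : ℝ, 128 ≤ T → ∀ t h : ℝ, 1 / 2 ≤ h → T / 2 ≤ t - h →
    t + h ≤ 3 * T → (nz h t : ℝ) ≤ C * (h * Real.log T) := by
  classical
  obtain ⟨C, hC, hz⟩ := zcount good_zeta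
  refine ⟨1 + 12 * C, by linarith, fun T hT t h hh h1 h2 => ?_⟩
  have hL1 : 1 ≤ Real.log T := by
    rw [Real.le_log_iff_exp_le (by linarith)]
    have := Real.exp_one_lt_d9
    linarith
  set a := t - h - 1 with ha
  set m : ℕ := ⌈h + 1⌉₊ with hm
  have hm1 : h + 1 ≤ m := Nat.le_ceil _
  have hm2 : (m : ℝ) < h + 1 + 1 := Nat.ceil_lt_add_one (by linarith)
  -- the sum over the zeros
  have key : ∀ j : ℕ, j ≤ m → (NN riemannZeta a (a + 2 * j) : ℝ) ≤ j * (C * (2 * Real.log T)) := by
    intro j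
    induction j with
    | zero =>
      intro _
      have : NN riemannZeta a (a + 2 * (0 : ℕ)) = 0 := by
        rw [NN_eq_sum good_zeta _ _ (by linarith)]
        refine Finset.sum_eq_zero fun s hs => ?_
        rw [Set.Finite.mem_toFinset] at hs
        have g1 := hs.2.2.1
        have g2 := hs.2.2.2.1
        simp only [Nat.cast_zero, mul_zero, add_zero] at g2
        linarith
      rw [this]
      simp
    | succ j ih =>
      intro hj
      have hj1 : (j : ℝ) + 1 ≤ m := by exact_mod_cast hj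
      have e := NN_add good_zeta (a := a) (b := a + 2 * j) (c := a + 2 * ((j + 1 : ℕ) : ℝ))
        (by linarith) (by have : (0 : ℝ) ≤ j := Nat.cast_nonneg _
                          linarith) (by push_cast; linarith)
      rw [e]
      push_cast
      have h3 := ih (by omega)
      have h4 := hz (a + 2 * j + 1) (by
        have : (0 : ℝ) ≤ j := Nat.cast_nonneg _
        linarith)
      have e2 : a + 2 * (j : ℝ) + 1 - 1 = a + 2 * j := by ring
      have e3 : a + 2 * (j : ℝ) + 1 + 1 = a + 2 * (j + 1) := by ring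
      rw [e2, e3] at h4
      have h5 : Real.log (a + 2 * j + 1) ≤ 2 * Real.log T := by
        have h6 : a + 2 * j + 1 ≤ T ^ 2 := by nlinarith
        have h7 := Real.log_le_log (by have : (0 : ℝ) ≤ j := Nat.cast_nonneg _
                                       linarith) h6
        rw [Real.log_pow] at h7
        push_cast at h7
        exact h7
      have h8 : C * Real.log (a + 2 * j + 1) ≤ C * (2 * Real.log T) := by gcongr
      linarith
  have h3 : (nz h t : ℝ) ≤ NN riemannZeta a (a + 2 * m) := by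
    rw [nz_eq (a := 1) (b := 4 * T) le_rfl (by linarith) (by linarith)]
    rw [NN_eq_sum good_zeta _ _ (by linarith)]
    push_cast
    unfold na
    refine Finset.sum_le_sum_of_subset_of_nonneg (fun s hs => ?_) fun _ _ _ => Nat.cast_nonneg _
    rw [Finset.mem_filter, mem_Zf good_zeta le_rfl] at hs
    obtain ⟨⟨g1, g2, g3, g4, g5⟩, g6⟩ := hs
    have g7 := abs_le.1 g6
    rw [Set.Finite.mem_toFinset]
    exact ⟨g1, g2, by linarith, by linarith, g5⟩
  have h4 := key m le_rfl
  have h5 : (m : ℝ) * (C * (2 * Real.log T)) ≤ (6 * h) * (C * (2 * Real.log T)) := by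
    have : (m : ℝ) ≤ 6 * h := by linarith
    gcongr
  have h6 : 0 ≤ h * Real.log T := by positivity
  nlinarith

/-- **moments of all orders, in every weight, all windows** -/
theorem kmom_all (hRH : RiemannHypothesis) : ∃ C T0 : ℝ, 1 ≤ C ∧ 128 ≤ T0 ∧
    ∀ T : ℝ, T0 ≤ T → ∀ K : ℝ, T ^ (1 - 1 / 64 : ℝ) ≤ K → K ≤ T / 2 →
    ∀ S : Finset ℕ, Len S (T ^ (1 / 64 : ℝ)) → ∀ (r : ℕ → ℂ) (Z : Finset ℂ),
    (∀ s ∈ Z, riemannZeta s = 0 ∧ 0 < s.re ∧ s.re < 1 ∧ T < s.im ∧ s.im ≤ T + K) →
    ∀ k : ℕ, 1 ≤ k → ∀ u h : Fin k → ℝ, (∀ i, |u i| ≤ T / 25) → (∀ i, 0 ≤ h i) →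
    (∀ i, h i ≤ T / 25) →
    ∑ s ∈ Z, (analyticOrderNatAt riemannZeta s : ℝ) * ‖RP S r s.im‖ ^ 2 *
      ∏ i, (nz (h i) (s.im + u i) : ℝ) ≤
      (∏ i, (C * (1 + h i * Real.log T + Mk k))) * (K * Real.log T * w1 S r) := by
  classical
  obtain ⟨C, T0, hC, hT0, hk0⟩ := kmom hRH
  obtain ⟨C2, hC2, hd⟩ := nz_det
  refine ⟨3 * C * C2, T0, ?_, hT0, fun T hT K hK1 hK2 S hS r Z hZ k hk u h hu hh0 hh1 => ?_⟩
  · nlinarith
  have hT128 : 128 ≤ T := hT0.trans hT
  have hL1 : 1 ≤ Real.log T := by
    rw [Real.le_log_iff_exp_le (by linarith)]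
    have := Real.exp_one_lt_d9
    linarith
  have hM := Mk_pos hk
  set W := K * Real.log T * w1 S r with hWd
  have hK0 : 0 ≤ K := le_trans (by positivity) hK1
  have hW : 0 ≤ W := by
    have := w1_nonneg S r
    positivity
  have ha : ∀ s ∈ Z, 0 ≤ (analyticOrderNatAt riemannZeta s : ℝ) * ‖RP S r s.im‖ ^ 2 :=
    fun s _ => by positivity
  have hbase : ∑ s ∈ Z, (analyticOrderNatAt riemannZeta s : ℝ) * ‖RP S r s.im‖ ^ 2 ≤
      3 * C * W := by
    have h1 := hk0 T hT K hK1 hK2 S hS r Z hZ 1 le_rfl (fun _ => 0) (fun _ => 0)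
      (fun _ => by simp only [abs_zero]; linarith) (fun _ => le_rfl) (fun _ => by norm_num)
    simp only [Finset.prod_const, Finset.card_univ, Fintype.card_fin, pow_one, add_zero,
      zero_mul] at h1
    have hM1 : 1 + Mk 1 ≤ 3 := by
      unfold Mk
      have h2 := Real.log_two_gt_d9
      norm_num
      have h3 : (Real.log 2)⁻¹ ≤ 2 := by
        rw [inv_le_comm₀ (by linarith) (by norm_num)]
        norm_num at h2 ⊢
        linarith
      linarith
    refine le_trans (Finset.sum_le_sum fun s hs => ?_) (h1.trans (mul_le_mul_of_nonneg_right ?_ hW))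
    · obtain ⟨g1, g2, g3, g4, g5⟩ := hZ s hs
      have h2 := order_le_nz (s := s) (h := 0) le_rfl g1 g2 g3 (by linarith)
      have h3 : 1 ≤ analyticOrderNatAt riemannZeta s := by
        refine order_pos ?_ g1
        rintro rfl
        simp at g3
      have h4 : (1 : ℝ) ≤ nz 0 s.im := by exact_mod_cast h3.trans h2
      have h5 := ha s hs
      nlinarith
    · nlinarith
  refine prod_mom Z _ ha hk (fun i s => nz (h i) (s.im + u i))
    (fun i => (3 * C * C2) * (1 + h i * Real.log T + Mk k)) (fun i => ?_) (fun i => ?_)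
  · have := hh0 i
    positivity
  · have hhi := hh0 i
    have hhL : 0 ≤ h i * Real.log T := by positivity
    by_cases hi : h i ≤ 1 / 2
    · have h1 := hk0 T hT K hK1 hK2 S hS r Z hZ k hk (fun _ => u i) (fun _ => h i)
        (fun _ => hu i) (fun _ => hhi) (fun _ => hi)
      simp only [Finset.prod_const, Finset.card_univ, Fintype.card_fin] at h1
      refine h1.trans (mul_le_mul_of_nonneg_right ?_ hW)
      refine pow_le_pow_left₀ (by positivity) ?_ k
      have : C ≤ 3 * C * C2 := by nlinarith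
      gcongr
    · push Not at hi
      have h1 : ∀ s ∈ Z, (analyticOrderNatAt riemannZeta s : ℝ) * ‖RP S r s.im‖ ^ 2 *
          (nz (h i) (s.im + u i) : ℝ) ^ k ≤ (analyticOrderNatAt riemannZeta s : ℝ) *
            ‖RP S r s.im‖ ^ 2 * (C2 * (h i * Real.log T)) ^ k := fun s hs => by
        obtain ⟨g1, g2, g3, g4, g5⟩ := hZ s hs
        have h2 := abs_le.1 (hu i)
        have h3 := hh1 i
        have h4 := hd T hT128 (s.im + u i) (h i) hi.le (by linarith) (by linarith)
        exact mul_le_mul_of_nonneg_left (pow_le_pow_left₀ (Nat.cast_nonneg _) h4 k) (ha s hs)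
      refine (Finset.sum_le_sum h1).trans ?_
      rw [← Finset.sum_mul]
      calc (∑ s ∈ Z, (analyticOrderNatAt riemannZeta s : ℝ) * ‖RP S r s.im‖ ^ 2) *
            (C2 * (h i * Real.log T)) ^ k ≤ (3 * C * W) * (C2 * (h i * Real.log T)) ^ k := by
            gcongr
        _ ≤ ((3 * C) ^ k * W) * (C2 * (h i * Real.log T)) ^ k := by
            have : 3 * C ≤ (3 * C) ^ k := by
              calc 3 * C = (3 * C) ^ 1 := (pow_one _).symm
                _ ≤ (3 * C) ^ k := pow_le_pow_right₀ (by linarith) hk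
            gcongr
        _ = (3 * C * C2 * (h i * Real.log T)) ^ k * W := by rw [mul_assoc (3 * C), mul_pow (3 * C)]; ring
        _ ≤ (3 * C * C2 * (1 + h i * Real.log T + Mk k)) ^ k * W := by
            gcongr
            linarith

end Pool.Agent.J4.H45.KL
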