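import Pool.Agent.J4.H45.KL.Zero2

/-!
# Zeros with many zeros in a window at a given distance, in every weight
-/

open Complex Filter Topology Set MeasureTheory
open scoped BigOperators ComplexConjugate

namespace Pool.Agent.J4.H45.KL

open H370 Pool.Agent.N802 Pool.Agent.N802.U Pool.Agent.J4.H45.MT

/-- **Gaussian averages** -/
theorem avg_pair {F : ℂ → ℂ} (hF : GoodL F) (hef : S_ef F) (hch : S_ch) (hRH : OnLine F) :
    ∃ c C0 T0 : ℝ, 0 < c ∧ 1 ≤ C0 ∧ 30 ≤ T0 ∧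
    ∀ T : ℝ, T0 ≤ T → ∀ S : Finset ℕ, Len S (T ^ (1 / 16 : ℝ)) → ∀ (r : ℕ → ℂ) (τ H : ℝ),
      T ^ (7 / 8 : ℝ) ≤ H → ∀ Z : Finset ℂ, Z ⊆ Zf F T (2 * T) →
      ∀ u h j : ℝ, 0 ≤ h → h ≤ 1 / 2 → C0 * (1 + h * Real.log T) ≤ j →
      (∀ s ∈ Z, T + Real.log T + 1 ≤ s.im + u ∧ s.im + u ≤ 2 * T - Real.log T - 1) →
      (∀ s ∈ Z, j ≤ na F T (2 * T) h (s.im + u)) →
      ∫ t in (T + Real.log T)..(2 * T - Real.log T), rh τ H S r t *
        gz F Z (1 / Real.log T) t ≤ (4 * Real.exp (-(c * (j * Real.log j)))) * mr H S r := by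
  obtain ⟨C, T1, hC, hT1, hcore⟩ := core_pair hF hef hch hRH
  obtain ⟨c, J0, hc, hJ0, hnum⟩ := num hC
  refine ⟨c, J0, T1, hc, by linarith, hT1, fun T hT S hS r τ H hH Z hZ u h j hh0 hh1 hj hZu hjZ => ?_⟩
  have hTp : 0 < T := by linarith
  have hL : 0 ≤ Real.log T := Real.log_nonneg (by linarith)
  have hH0 : 0 < H := lt_of_lt_of_le (by positivity) hH
  have hM := mr_nonneg' hH0.le S r
  have hJ0p : 0 < J0 := by linarith
  have hhL : 0 ≤ h * Real.log T := by positivity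
  have hjJ : J0 ≤ j := by
    refine le_trans ?_ hj
    nlinarith
  have hj0 : 0 < j := by linarith
  obtain ⟨hz, hcore⟩ := hcore T hT S hS r τ H hH Z hZ u h j hh0 hh1 hj0 hZu hjZ
  obtain ⟨k, hk1, hk32, hkb⟩ := hnum j hjJ
  rcases lt_or_ge (C * Real.log T) j with h1 | h1
  · refine (hz h1).trans ?_
    positivity
  · set q := j / (4 * C) with hq
    have hC0 : 0 < C := by linarith
    have hq4 : 4 * C * q = j := by rw [hq]; field_simp
    have h32 : 32 ≤ q := by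
      rw [hq, le_div_iff₀ (by positivity)]
      nlinarith
    have hqL : q ≤ Real.log T := by
      rw [hq, div_le_iff₀ (by positivity)]
      nlinarith
    have hhq : h * Real.log T + 1 ≤ 3 / 2 * q := by
      have h3 : 1024 * C * (1 + h * Real.log T) ≤ j := by
        refine le_trans ?_ hj
        gcongr
      rw [hq, ← mul_div_assoc, le_div_iff₀ (by positivity)]
      nlinarith
    have h2 := hcore q h32 hqL hhq k hk1 hk32 hq4.le
    refine h2.trans ?_
    gcongr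

lemma log_small2 {T : ℝ} (hT : 128 ≤ T) : Real.log T + 1 ≤ T / 20 := by
  have hT0 : 0 < T := by linarith
  have h1 := Real.log_le_sub_one_of_pos (show 0 < T / 64 by positivity)
  rw [Real.log_div hT0.ne' (by norm_num)] at h1
  have h2 : Real.log 64 = 6 * Real.log 2 := by
    rw [show (64 : ℝ) = 2 ^ 6 by norm_num, Real.log_pow]
    norm_num
  have h3 := Real.log_two_lt_d9
  linarith

/-- **the zeros with many zeros in a window at a given distance** -/
theorem zeros_pair {F : ℂ → ℂ} (hF : GoodL F) (hef : S_ef F) (hch : S_ch) (hRH : OnLine F) :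
    ∃ c C0 T0 : ℝ, 0 < c ∧ 1 ≤ C0 ∧ 128 ≤ T0 ∧
    ∀ T : ℝ, T0 ≤ T → ∀ K : ℝ, T ^ (1 - 1 / 64 : ℝ) ≤ K → K ≤ T / 2 →
    ∀ S : Finset ℕ, Len S (T ^ (1 / 64 : ℝ)) → ∀ (r : ℕ → ℂ) (Z : Finset ℂ), Z ⊆ Zf F T (T + K) →
    ∀ u h j : ℝ, |u| ≤ T / 25 → 0 ≤ h → h ≤ 1 / 2 → C0 * (1 + h * Real.log T) ≤ j →
    (∀ s ∈ Z, j ≤ na F 1 (4 * T) h (s.im + u)) →
    ∑ s ∈ Z, (mult F s : ℝ) * ‖RP S r s.im‖ ^ 2 ≤
      400 * Real.exp (-(c * (j * Real.log j))) * (K * Real.log T * w1 S r) := by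
  obtain ⟨c, C0, T1, hc, hC0, hT1, havg⟩ := avg_pair hF hef hch hRH
  refine ⟨c, C0, max (2 * T1) 1000, hc, hC0, le_trans (by norm_num) (le_max_right _ _),
    fun T hT K hK1 hK2 S hS r Z hZ u h j hu hh0 hh1 hj hjZ => ?_⟩
  have hTT1 : 2 * T1 ≤ T := (le_max_left _ _).trans hT
  have hT1000 : 1000 ≤ T := (le_max_right _ _).trans hT
  have hTp : 0 < T := by linarith
  have hu' := abs_le.1 hu
  have hlog := log_small2 (by linarith : (128 : ℝ) ≤ T)
  have hL1 : Real.log (9 / 10 * T) ≤ Real.log T := Real.log_le_log (by positivity) (by linarith)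
  have hL10 : 0 ≤ Real.log (9 / 10 * T) := Real.log_nonneg (by linarith)
  have e1 : (1 - 1 / 64 : ℝ) = 1 - 1 / 16 / 4 := by norm_num
  have e2 : (1 / 64 : ℝ) = 1 / 16 / 4 := by norm_num
  rw [e1] at hK1
  rw [e2] at hS
  have hmain := transfer2 hF (δ' := 1 / 16) (T := T) (by norm_num) (by norm_num) (by linarith)
    (φ := 4 * Real.exp (-(c * (j * Real.log j)))) (by positivity) (S := S) (Z := Z) ?_ K hK1 hK2
    hS r hZ
  · refine hmain.trans (le_of_eq ?_)
    ring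
  · intro hSlen hZ1 r' τ
    have hb : ∀ s ∈ Z, T < s.im ∧ s.im ≤ T + K := fun s hs => by
      have h1 := hZ hs
      rw [mem_Zf hF (by linarith)] at h1
      exact ⟨h1.2.2.1, h1.2.2.2.1⟩
    refine havg (9 / 10 * T) (by linarith) S hSlen r' τ _ ?_ Z hZ1 u h j hh0 hh1 ?_ ?_ ?_
    · exact Real.rpow_le_rpow_of_exponent_le (by linarith) (by norm_num)
    · refine le_trans ?_ hj
      have : h * Real.log (9 / 10 * T) ≤ h * Real.log T := by gcongr
      nlinarith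
    · intro s hs
      obtain ⟨h1, h2⟩ := hb s hs
      constructor <;> linarith
    · intro s hs
      obtain ⟨h1, h2⟩ := hb s hs
      refine (hjZ s hs).trans (na_cmp hF le_rfl (by linarith) ?_ ?_ ?_)
      · rw [sub_self, abs_zero, zero_add]
      · linarith
      · linarith

end Pool.Agent.J4.H45.KL
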