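import Pool.Agent.J4.H45.KL.Fin2
import Pool.Agent.J4.H45.MT.Zeta
import Pool.Agent.J4.H45.MT.Res

/-!
# Moments of all orders of the numbers of zeros in windows, in every weight
-/

open Complex Filter Topology Set MeasureTheory
open scoped BigOperators ComplexConjugate

namespace Pool.Agent.J4.H45.KL

open H370 Pool.Agent.N802 Pool.Agent.N802.U Pool.Agent.J4.H45.MT

/-- the growth of the moments -/
noncomputable def Mk (k : ℕ) : ℝ := k / Real.log (k + 1)

lemma log_pos' {k : ℕ} (hk : 1 ≤ k) : 0 < Real.log ((k : ℝ) + 1) :=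
  Real.log_pos (by
    have : (1 : ℝ) ≤ k := by exact_mod_cast hk
    linarith)

lemma Mk_pos {k : ℕ} (hk : 1 ≤ k) : 0 < Mk k := by
  have : (1 : ℝ) ≤ k := by exact_mod_cast hk
  exact div_pos (by linarith) (log_pos' hk)

/-- one term -/
lemma pw {c : ℝ} (hc : 0 < c) : ∃ B : ℝ, 1 ≤ B ∧ ∀ k : ℕ, 1 ≤ k → ∀ i : ℕ, 1 ≤ i →
    (i : ℝ) ^ k * Real.exp (-(c * (i * Real.log i))) ≤ (B * Mk k) ^ k := by
  refine ⟨2 * Real.exp (2 * c) / c, ?_, fun k hk i hi => ?_⟩
  · rw [le_div_iff₀ hc]
    have := Real.add_one_le_exp (2 * c)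
    linarith
  · have hk1 : (1 : ℝ) ≤ k := by exact_mod_cast hk
    have hi1 : (1 : ℝ) ≤ i := by exact_mod_cast hi
    have hl := log_pos' hk
    have hM := Mk_pos hk
    set l := Real.log ((k : ℝ) + 1) with hld
    have hli : 0 ≤ Real.log i := Real.log_nonneg hi1
    set β := c / 2 with hβ
    have hβ0 : 0 < β := by positivity
    have hkM : (k : ℝ) / Mk k = l := by
      unfold Mk
      rw [← hld]
      field_simp
    -- `log i ≤ log M - log β + β i / M - 1`
    have h1 : Real.log i ≤ Real.log (Mk k) - Real.log β + (β * i / Mk k - 1) := by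
      have h2 := Real.log_le_sub_one_of_pos (show 0 < β * i / Mk k by positivity)
      rw [Real.log_div (by positivity) hM.ne', Real.log_mul hβ0.ne' (by positivity)] at h2
      linarith
    have h2 : (k : ℝ) * Real.log i ≤
        k * (Real.log (Mk k) - Real.log β - 1) + β * (i * l) := by
      have h3 := mul_le_mul_of_nonneg_left h1 (by linarith : (0 : ℝ) ≤ k)
      have h4 : (k : ℝ) * (β * i / Mk k) = β * (i * l) := by
        rw [← hkM]
        field_simp
      nlinarith
    have h3 : β * (i * l) ≤ c * (i * Real.log i) + k * (2 * c) := by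
      by_cases hik : (k : ℝ) + 1 ≤ (i : ℝ) ^ 2
      · have h4 : l ≤ 2 * Real.log i := by
          have := Real.log_le_log (by linarith) hik
          rw [Real.log_pow] at this
          push_cast at this
          exact this
        have h5 : β * (i * l) ≤ β * (i * (2 * Real.log i)) := by gcongr
        have h6 : 0 ≤ (k : ℝ) * (2 * c) := by positivity
        have h7 : β * (i * (2 * Real.log i)) = c * (i * Real.log i) := by rw [hβ]; ring
        linarith
      · push Not at hik
        have hs0 : 0 ≤ Real.sqrt ((k : ℝ) + 1) := Real.sqrt_nonneg _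
        have hs : Real.sqrt ((k : ℝ) + 1) ^ 2 = k + 1 := Real.sq_sqrt (by linarith)
        have h4 : (i : ℝ) ≤ Real.sqrt ((k : ℝ) + 1) := Real.le_sqrt_of_sq_le hik.le
        have h5 : l ≤ 2 * Real.sqrt ((k : ℝ) + 1) := by
          have h6 : l = 2 * Real.log (Real.sqrt ((k : ℝ) + 1)) := by
            rw [hld, Real.log_sqrt (by linarith)]
            ring
          have h7 := Real.log_le_sub_one_of_pos (Real.sqrt_pos.2 (by linarith : 0 < (k : ℝ) + 1))
          linarith
        have h6 : (i : ℝ) * l ≤ 2 * (k + 1) := by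
          calc (i : ℝ) * l ≤ Real.sqrt ((k : ℝ) + 1) * (2 * Real.sqrt ((k : ℝ) + 1)) := by gcongr
            _ = 2 * Real.sqrt ((k : ℝ) + 1) ^ 2 := by ring
            _ = _ := by rw [hs]
        have h7 : β * (i * l) ≤ β * (2 * (k + 1)) := by gcongr
        have h8 : β * (2 * (k + 1)) = c * (k + 1) := by rw [hβ]; ring
        have h9 : 0 ≤ c * (i * Real.log i) := by positivity
        nlinarith
    have e1 : (i : ℝ) ^ k * Real.exp (-(c * (i * Real.log i))) =
        Real.exp (k * Real.log i - c * (i * Real.log i)) := by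
      rw [sub_eq_add_neg, Real.exp_add, mul_comm (k : ℝ), Real.exp_mul, Real.exp_log (by linarith),
        Real.rpow_natCast]
    have hB0 : 0 < 2 * Real.exp (2 * c) / c * Mk k := by positivity
    have e2 : (2 * Real.exp (2 * c) / c * Mk k) ^ k =
        Real.exp (k * (Real.log (Mk k) - Real.log β + 2 * c)) := by
      have e3 : 2 * Real.exp (2 * c) / c * Mk k =
          Real.exp (Real.log (Mk k) - Real.log β + 2 * c) := by
        rw [Real.exp_add, Real.exp_sub, Real.exp_log hM, Real.exp_log hβ0, hβ]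
        field_simp
      rw [e3, ← Real.exp_nat_mul]
    rw [e1, e2]
    apply Real.exp_le_exp.2
    nlinarith

/-- moments from tails -/
lemma mom_layer (Z : Finset ℂ) (a : ℂ → ℝ) (n : ℂ → ℕ) (ha : ∀ s ∈ Z, 0 ≤ a s)
    {A W C1 D c B : ℝ} (hA : 0 ≤ A) (hW : 0 ≤ W) (hD : 0 ≤ D) {k : ℕ} (hk : 1 ≤ k)
    (hc : 0 < c) (hB : ∀ i : ℕ, 1 ≤ i →
      (i : ℝ) ^ k * Real.exp (-(c / 2 * (i * Real.log i))) ≤ B)
    (h1 : ∑ s ∈ Z, a s ≤ C1 * W)
    (h2 : ∀ i : ℕ, A ≤ i → ∑ s ∈ Z.filter (fun s => i ≤ n s), a s ≤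
      D * Real.exp (-(c * (i * Real.log i))) * W) :
    ∑ s ∈ Z, a s * (n s : ℝ) ^ k ≤
      (C1 * A ^ k + D * (∑' i : ℕ, Real.exp (0 * (i : ℝ)) *
        (1 * Real.exp (-(c / 2 * ((i : ℝ) * Real.log i))))) * B) * W := by
  set I := Z.sup n with hI
  have hB0 : 0 ≤ B := by
    refine le_trans ?_ (hB 1 le_rfl)
    positivity
  have key : ∀ s ∈ Z, a s * (n s : ℝ) ^ k ≤ A ^ k * a s +
      ∑ i ∈ (Finset.Icc 1 I).filter (fun i : ℕ => A ≤ i),
        (if i ≤ n s then (i : ℝ) ^ k * a s else 0) := by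
    intro s hs
    have has := ha s hs
    have hsum0 : 0 ≤ ∑ i ∈ (Finset.Icc 1 I).filter (fun i : ℕ => A ≤ i),
        (if i ≤ n s then (i : ℝ) ^ k * a s else 0) :=
      Finset.sum_nonneg fun i _ => by split_ifs <;> positivity
    by_cases hn : (n s : ℝ) ≤ A
    · have h3 : (n s : ℝ) ^ k ≤ A ^ k := pow_le_pow_left₀ (Nat.cast_nonneg _) hn k
      nlinarith
    · push Not at hn
      have hn1 : 1 ≤ n s := by
        have : (0 : ℝ) < n s := lt_of_le_of_lt hA hn
        exact_mod_cast this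
      have h3 : n s ∈ (Finset.Icc 1 I).filter (fun i : ℕ => A ≤ i) :=
        Finset.mem_filter.2 ⟨Finset.mem_Icc.2 ⟨hn1, Finset.le_sup hs⟩, hn.le⟩
      have h4 := Finset.single_le_sum (f := fun i : ℕ =>
        (if i ≤ n s then (i : ℝ) ^ k * a s else 0)) (fun i _ => by split_ifs <;> positivity) h3
      simp only [le_refl, if_true] at h4
      have h5 : 0 ≤ A ^ k * a s := by positivity
      linarith [mul_comm (a s) ((n s : ℝ) ^ k)]
  have hsm := summ_rh (C := 1) (show 0 < c / 2 by positivity) 0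
  calc ∑ s ∈ Z, a s * (n s : ℝ) ^ k ≤ ∑ s ∈ Z, (A ^ k * a s +
      ∑ i ∈ (Finset.Icc 1 I).filter (fun i : ℕ => A ≤ i),
        (if i ≤ n s then (i : ℝ) ^ k * a s else 0)) := Finset.sum_le_sum key
    _ = A ^ k * ∑ s ∈ Z, a s + ∑ i ∈ (Finset.Icc 1 I).filter (fun i : ℕ => A ≤ i),
        (i : ℝ) ^ k * ∑ s ∈ Z.filter (fun s => i ≤ n s), a s := by
        rw [Finset.sum_add_distrib, Finset.mul_sum]
        congr 1
        rw [Finset.sum_comm]
        refine Finset.sum_congr rfl fun i _ => ?_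
        rw [Finset.sum_filter, Finset.mul_sum]
        refine Finset.sum_congr rfl fun s _ => ?_
        split_ifs <;> simp
    _ ≤ A ^ k * (C1 * W) + ∑ i ∈ (Finset.Icc 1 I).filter (fun i : ℕ => A ≤ i),
        (D * B * W) * (Real.exp (0 * (i : ℝ)) *
          (1 * Real.exp (-(c / 2 * ((i : ℝ) * Real.log i))))) := by
        refine add_le_add (mul_le_mul_of_nonneg_left h1 (by positivity))
          (Finset.sum_le_sum fun i hi => ?_)
        rw [Finset.mem_filter, Finset.mem_Icc] at hi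
        have h3 := h2 i hi.2
        have h4 := hB i hi.1.1
        have e : Real.exp (-(c * (i * Real.log i))) =
            Real.exp (-(c / 2 * (i * Real.log i))) * Real.exp (-(c / 2 * (i * Real.log i))) := by
          rw [← Real.exp_add]
          congr 1
          ring
        set x := Real.exp (-(c / 2 * ((i : ℝ) * Real.log i))) with hx
        have hx0 : 0 < x := Real.exp_pos _
        rw [zero_mul, Real.exp_zero, one_mul, one_mul]
        calc (i : ℝ) ^ k * ∑ s ∈ Z.filter (fun s => i ≤ n s), a s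
            ≤ (i : ℝ) ^ k * (D * Real.exp (-(c * (i * Real.log i))) * W) := by gcongr
          _ = D * W * x * ((i : ℝ) ^ k * x) := by rw [e]; ring
          _ ≤ D * W * x * B := by gcongr
          _ = _ := by ring
    _ = A ^ k * (C1 * W) + (D * B * W) *
        ∑ i ∈ (Finset.Icc 1 I).filter (fun i : ℕ => A ≤ i), (Real.exp (0 * (i : ℝ)) *
          (1 * Real.exp (-(c / 2 * ((i : ℝ) * Real.log i))))) := by rw [Finset.mul_sum]
    _ ≤ A ^ k * (C1 * W) + (D * B * W) * ∑' i : ℕ, (Real.exp (0 * (i : ℝ)) *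
          (1 * Real.exp (-(c / 2 * ((i : ℝ) * Real.log i))))) := by
        refine add_le_add le_rfl (mul_le_mul_of_nonneg_left ?_ (by positivity))
        exact hsm.sum_le_tsum _ fun i _ => by positivity
    _ = _ := by ring

/-- the product of several numbers of zeros -/
lemma prod_mom (Z : Finset ℂ) (a : ℂ → ℝ) (ha : ∀ s ∈ Z, 0 ≤ a s) {k : ℕ} (hk : 1 ≤ k)
    (n : Fin k → ℂ → ℕ) (lam : Fin k → ℝ) (hl : ∀ i, 0 < lam i) {W : ℝ}
    (h : ∀ i, ∑ s ∈ Z, a s * (n i s : ℝ) ^ k ≤ lam i ^ k * W) :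
    ∑ s ∈ Z, a s * ∏ i, (n i s : ℝ) ≤ (∏ i, lam i) * W := by
  have hk0 : (0 : ℝ) < k := by exact_mod_cast hk
  have hP : 0 < ∏ i, lam i := Finset.prod_pos fun i _ => hl i
  have key : ∀ s, ∏ i, (n i s : ℝ) ≤
      (∏ i, lam i) * ∑ i, 1 / (k : ℝ) * ((n i s : ℝ) ^ k / lam i ^ k) := by
    intro s
    have h1 := Real.geom_mean_le_arith_mean_weighted (Finset.univ : Finset (Fin k))
      (fun _ => 1 / (k : ℝ)) (fun i => (n i s : ℝ) ^ k / lam i ^ k) (fun _ _ => by positivity)
      (by rw [Finset.sum_const, Finset.card_univ, Fintype.card_fin, nsmul_eq_mul]; field_simp)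
      (fun i _ => by have := hl i; positivity)
    have h2 : ∀ i : Fin k, ((n i s : ℝ) ^ k / lam i ^ k) ^ (1 / (k : ℝ)) = n i s / lam i := by
      intro i
      have := hl i
      rw [← div_pow, one_div, Real.pow_rpow_inv_natCast (by positivity) (by omega)]
    simp_rw [h2] at h1
    rw [Finset.prod_div_distrib, div_le_iff₀ hP] at h1
    rw [mul_comm]
    exact h1
  calc ∑ s ∈ Z, a s * ∏ i, (n i s : ℝ)
      ≤ ∑ s ∈ Z, a s * ((∏ i, lam i) * ∑ i, 1 / (k : ℝ) * ((n i s : ℝ) ^ k / lam i ^ k)) :=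
        Finset.sum_le_sum fun s hs => mul_le_mul_of_nonneg_left (key s) (ha s hs)
    _ = (∏ i, lam i) * ∑ i, 1 / (k : ℝ) * ((∑ s ∈ Z, a s * (n i s : ℝ) ^ k) / lam i ^ k) := by
        simp only [Finset.mul_sum, Finset.sum_div]
        rw [Finset.sum_comm]
        refine Finset.sum_congr rfl fun i _ => Finset.sum_congr rfl fun s _ => ?_
        ring
    _ ≤ (∏ i, lam i) * ∑ i : Fin k, 1 / (k : ℝ) * W := by
        refine mul_le_mul_of_nonneg_left (Finset.sum_le_sum fun i _ => ?_) hP.le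
        refine mul_le_mul_of_nonneg_left ?_ (by positivity)
        have := hl i
        rw [div_le_iff₀ (by positivity)]
        linarith [h i, mul_comm W (lam i ^ k)]
    _ = _ := by
        rw [Finset.sum_const, Finset.card_univ, Fintype.card_fin, nsmul_eq_mul]
        field_simp

/-- **moments of all orders, in every weight** -/
theorem kmom (hRH : RiemannHypothesis) : ∃ C T0 : ℝ, 1 ≤ C ∧ 128 ≤ T0 ∧
    ∀ T : ℝ, T0 ≤ T → ∀ K : ℝ, T ^ (1 - 1 / 64 : ℝ) ≤ K → K ≤ T / 2 →
    ∀ S : Finset ℕ, Len S (T ^ (1 / 64 : ℝ)) → ∀ (r : ℕ → ℂ) (Z : Finset ℂ),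
    (∀ s ∈ Z, riemannZeta s = 0 ∧ 0 < s.re ∧ s.re < 1 ∧ T < s.im ∧ s.im ≤ T + K) →
    ∀ k : ℕ, 1 ≤ k → ∀ u h : Fin k → ℝ, (∀ i, |u i| ≤ T / 25) → (∀ i, 0 ≤ h i) →
    (∀ i, h i ≤ 1 / 2) →
    ∑ s ∈ Z, (analyticOrderNatAt riemannZeta s : ℝ) * ‖RP S r s.im‖ ^ 2 *
      ∏ i, (nz (h i) (s.im + u i) : ℝ) ≤
      (∏ i, (C * (1 + h i * Real.log T + Mk k))) * (K * Real.log T * w1 S r) := by
  classical
  obtain ⟨c, C0, T1, hc, hC0, hT1, hz⟩ := zeros_pair good_zeta ef_zeta ch (online hRH)
  obtain ⟨c', C1, T2, hc', hC1, hT2, hw⟩ := wt_rh hRH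
  obtain ⟨B, hB1, hB⟩ := pw (show 0 < c / 2 by positivity)
  set S0 : ℝ := ∑' i : ℕ, Real.exp (0 * (i : ℝ)) *
        (1 * Real.exp (-(c / 2 * ((i : ℝ) * Real.log i)))) with hS0
  have hS00 : 0 ≤ S0 := tsum_nonneg fun i => by positivity
  set D1 : ℝ := C1 + 1 with hD1
  set D2 : ℝ := 400 * S0 + 1 with hD2
  refine ⟨D1 * C0 + D2 * B, max T1 T2, ?_, hT1.trans (le_max_left _ _),
    fun T hT K hK1 hK2 S hS r Z hZ k hk u h hu hh0 hh1 => ?_⟩
  · have : 1 * 1 ≤ D1 * C0 := mul_le_mul (by linarith) hC0 zero_le_one (by linarith)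
    have : 0 ≤ D2 * B := by positivity
    linarith
  have hTT1 : T1 ≤ T := (le_max_left _ _).trans hT
  have hTT2 : T2 ≤ T := (le_max_right _ _).trans hT
  have hT128 : 128 ≤ T := hT1.trans hTT1
  have hL : 0 ≤ Real.log T := Real.log_nonneg (by linarith)
  have hK0 : 0 ≤ K := le_trans (by positivity) hK1
  set W := K * Real.log T * w1 S r with hWd
  have hW : 0 ≤ W := by
    have := w1_nonneg S r
    positivity
  have hM := Mk_pos hk
  have ha : ∀ s ∈ Z, 0 ≤ (analyticOrderNatAt riemannZeta s : ℝ) * ‖RP S r s.im‖ ^ 2 :=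
    fun s _ => by positivity
  have hbase : ∑ s ∈ Z, (analyticOrderNatAt riemannZeta s : ℝ) * ‖RP S r s.im‖ ^ 2 ≤ C1 * W := by
    have h1 := hw T hTT2 K hK1 hK2 S hS r 1 le_rfl Z (fun s hs => by
      obtain ⟨g1, g2, g3, g4, g5⟩ := hZ s hs
      refine ⟨g1, g2, g3, g4, g5, ?_⟩
      have hL1 : 1 ≤ Real.log T := by
        rw [Real.le_log_iff_exp_le (by linarith)]
        have := Real.exp_one_lt_d9
        linarith
      have hL2 : 1 / Real.log T ≤ 1 := by
        rw [div_le_one (by linarith)]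
        exact hL1
      have hL3 : 0 < 1 / Real.log T := by positivity
      rw [nz_eq le_rfl (b := 4 * T) (by linarith) (by linarith), na_eq]
      have hmem : s ∈ Zf riemannZeta 1 (4 * T) := by
        rw [mem_Zf good_zeta le_rfl]
        exact ⟨g2, g3, by linarith, by linarith, g1⟩
      have h2 := Finset.single_le_sum (f := fun s' => if |s'.im - s.im| ≤ 1 / Real.log T then
        (mult riemannZeta s' : ℝ) else 0) (fun i _ => by split_ifs <;> positivity) hmem
      have h3 : |s.im - s.im| ≤ 1 / Real.log T := by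
        rw [sub_self, abs_zero]
        exact hL3.le
      simp only [if_pos h3] at h2
      refine le_trans ?_ h2
      have h4 : 1 ≤ mult riemannZeta s := by
        have h5 : s ≠ 1 := by
          rintro rfl
          simp at g3
        exact order_pos h5 g1
      exact_mod_cast h4)
    simpa using h1
  have e : (∏ i, ((D1 * C0 + D2 * B) * (1 + h i * Real.log T + Mk k))) * W =
      (∏ i, ((D1 * C0 + D2 * B) * (1 + h i * Real.log T + Mk k))) * W := rfl
  refine prod_mom Z _ ha hk (fun i s => nz (h i) (s.im + u i))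
    (fun i => (D1 * C0 + D2 * B) * (1 + h i * Real.log T + Mk k)) (fun i => ?_) (fun i => ?_)
  · have := hh0 i
    positivity
  · have hhi := hh0 i
    have hhL : 0 ≤ h i * Real.log T := by positivity
    have h1 := mom_layer Z _ (fun s => nz (h i) (s.im + u i)) ha
      (A := C0 * (1 + h i * Real.log T)) (W := W) (C1 := C1) (D := 400) (c := c)
      (B := (B * Mk k) ^ k) (by positivity) hW (by norm_num) hk hc (fun j hj => hB k hk j hj)
      hbase (fun j hj => by
        have hZf : ∀ s ∈ Z, s ∈ Zf riemannZeta T (T + K) := fun s hs => by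
          obtain ⟨g1, g2, g3, g4, g5⟩ := hZ s hs
          rw [mem_Zf good_zeta (by linarith)]
          exact ⟨g2, g3, g4, g5, g1⟩
        refine hz T hTT1 K hK1 hK2 S hS r (Z.filter _)
          (fun s hs => hZf s (Finset.mem_filter.1 hs).1) (u i) (h i) j (hu i) hhi (hh1 i) hj ?_
        intro s hs
        rw [Finset.mem_filter] at hs
        obtain ⟨g1, g2, g3, g4, g5⟩ := hZ s hs.1
        have hui := abs_le.1 (hu i)
        have := hh1 i
        rw [← nz_eq le_rfl (by linarith) (by linarith)]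
        exact_mod_cast hs.2)
    refine h1.trans (mul_le_mul_of_nonneg_right ?_ hW)
    have p1 : C1 * (C0 * (1 + h i * Real.log T)) ^ k ≤ (D1 * (C0 * (1 + h i * Real.log T))) ^ k := by
      rw [mul_pow D1]
      have : C1 ≤ D1 ^ k := by
        calc C1 ≤ D1 := by linarith
          _ = D1 ^ 1 := (pow_one _).symm
          _ ≤ D1 ^ k := pow_le_pow_right₀ (by linarith) hk
      gcongr
    have p2 : 400 * S0 * (B * Mk k) ^ k ≤ (D2 * (B * Mk k)) ^ k := by
      rw [mul_pow D2]
      have : 400 * S0 ≤ D2 ^ k := by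
        calc 400 * S0 ≤ D2 := by linarith
          _ = D2 ^ 1 := (pow_one _).symm
          _ ≤ D2 ^ k := pow_le_pow_right₀ (by linarith) hk
      gcongr
    refine (add_le_add p1 p2).trans ?_
    refine (pow_add_pow_le (by positivity) (by positivity) (by omega)).trans ?_
    refine pow_le_pow_left₀ (by positivity) ?_ k
    have q1 : D1 * (C0 * (1 + h i * Real.log T)) ≤
        D1 * C0 * (1 + h i * Real.log T + Mk k) := by
      have : 0 ≤ D1 * C0 * Mk k := by positivity
      nlinarith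
    have q2 : D2 * (B * Mk k) ≤ D2 * B * (1 + h i * Real.log T + Mk k) := by
      have : 0 ≤ D2 * B * (1 + h i * Real.log T) := by positivity
      nlinarith
    rw [add_mul (D1 * C0)]
    linarith

end Pool.Agent.J4.H45.KL
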