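import Pool.Agent.J4.H45.KL.Det
import Pool.Agent.J4.H50.Kr

/-!
# Tuples of zeros
-/

open Complex Filter Topology Set MeasureTheory
open scoped BigOperators ComplexConjugate

namespace Pool.Agent.J4.H45.KL

open H370 Pool.Agent.N802 Pool.Agent.N802.U Pool.Agent.J4.H45.MT
open Pool.Agent.W54.TCF (Z mlt)

/-- the indices of the positive zeros of `Z` -/
def idx : Set (ℝ × ℕ) := {p | 0 < p.1 ∧ Z p.1 = 0 ∧ p.2 < mlt p.1}

open Classical in
/-- the indices of the zeros of a finite set -/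
noncomputable def idxF (X : Finset ℂ) : Finset (ℝ × ℕ) :=
  (X.sigma (fun s => Finset.range (analyticOrderNatAt riemannZeta s))).image
    (fun a => (a.1.im, a.2))

lemma mem_idxF {X : Finset ℂ} {p : ℝ × ℕ} (h1 : Z p.1 = 0) (h2 : p.2 < mlt p.1)
    (h : (⟨1 / 2, p.1⟩ : ℂ) ∈ X) : p ∈ idxF X := by
  unfold idxF
  rw [Finset.mem_image]
  refine ⟨⟨⟨1 / 2, p.1⟩, p.2⟩, ?_, rfl⟩
  rw [Finset.mem_sigma, Finset.mem_range, ← mlt_half h1]
  exact ⟨h, h2⟩

lemma card_idxF (X : Finset ℂ) :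
    ((idxF X).card : ℝ) ≤ ∑ s ∈ X, (analyticOrderNatAt riemannZeta s : ℝ) := by
  classical
  unfold idxF
  have h := Finset.card_image_le (s := X.sigma (fun s => Finset.range
    (analyticOrderNatAt riemannZeta s))) (f := fun a => (a.1.im, a.2))
  rw [Finset.card_sigma] at h
  simp only [Finset.card_range] at h
  exact_mod_cast h

lemma sum_im {α β : Type*} [DecidableEq β] (Y : Finset α) (φ : α → β) (f : β → ℝ)
    (hf : ∀ b, 0 ≤ f b) : ∑ b ∈ Y.image φ, f b ≤ ∑ a ∈ Y, f (φ a) := by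
  rw [← Finset.sum_fiberwise_of_maps_to (s := Y) (t := Y.image φ) (g := φ)
    (fun a ha => Finset.mem_image_of_mem _ ha)]
  refine Finset.sum_le_sum fun b hb => ?_
  obtain ⟨a, ha, rfl⟩ := Finset.mem_image.1 hb
  exact Finset.single_le_sum (f := fun a => f (φ a)) (fun _ _ => hf _)
    (Finset.mem_filter.2 ⟨ha, rfl⟩)

lemma sum_idxF (X : Finset ℂ) (g : ℝ → ℝ) (hg : ∀ t, 0 ≤ g t) :
    ∑ a ∈ idxF X, g a.1 ≤ ∑ s ∈ X, (analyticOrderNatAt riemannZeta s : ℝ) * g s.im := by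
  classical
  unfold idxF
  refine (sum_im _ _ (fun b : ℝ × ℕ => g b.1) fun _ => hg _).trans (le_of_eq ?_)
  rw [Finset.sum_sigma]
  refine Finset.sum_congr rfl fun s _ => ?_
  simp

/-- tuples are counted by the numbers in the windows -/
lemma tuple_sum {n : ℕ} (A : Finset (ℝ × ℕ)) (W : Fin n → ℝ → Finset (ℝ × ℕ)) (G : ℝ → ℝ)
    (hG : ∀ t, 0 ≤ G t) (F : Set (Fin (n + 1) → ℝ × ℕ))
    (h : ∀ f ∈ F, f (Fin.last n) ∈ A ∧ ∀ i : Fin n, f i.castSucc ∈ W i (f (Fin.last n)).1) :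
    F.Finite ∧ ∑ᶠ f ∈ F, G (f (Fin.last n)).1 ≤
      ∑ a ∈ A, G a.1 * ∏ i, ((W i a.1).card : ℝ) := by
  classical
  set Y := A.sigma (fun a => Fintype.piFinset (fun i => W i a.1)) with hY
  set φ : (Σ _ : ℝ × ℕ, (Fin n → ℝ × ℕ)) → (Fin (n + 1) → ℝ × ℕ) :=
    fun b => Fin.snoc (α := fun _ => ℝ × ℕ) b.2 b.1 with hφ
  have hsub : F ⊆ (Y.image φ : Set (Fin (n + 1) → ℝ × ℕ)) := by
    intro f hf
    obtain ⟨h1, h2⟩ := h f hf
    rw [Finset.mem_coe, Finset.mem_image]
    refine ⟨⟨f (Fin.last n), fun i => f i.castSucc⟩, ?_, ?_⟩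
    · rw [hY, Finset.mem_sigma, Fintype.mem_piFinset]
      exact ⟨h1, h2⟩
    · exact Fin.snoc_init_self f
  have hfin : F.Finite := (Finset.finite_toSet _).subset hsub
  refine ⟨hfin, ?_⟩
  rw [finsum_mem_eq_finite_toFinset_sum _ hfin]
  calc ∑ f ∈ hfin.toFinset, G (f (Fin.last n)).1
      ≤ ∑ f ∈ Y.image φ, G (f (Fin.last n)).1 :=
        Finset.sum_le_sum_of_subset_of_nonneg (fun f hf => by
          rw [Set.Finite.mem_toFinset] at hf
          exact Finset.mem_coe.1 (hsub hf)) fun _ _ _ => hG _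
    _ ≤ ∑ b ∈ Y, G (φ b (Fin.last n)).1 := sum_im _ _ _ fun _ => hG _
    _ = _ := by
        rw [hY, Finset.sum_sigma]
        refine Finset.sum_congr rfl fun a _ => ?_
        simp only [hφ, Fin.snoc_last, Finset.sum_const, Fintype.card_piFinset, nsmul_eq_mul]
        push_cast
        ring

open Classical in
/-- the indices in the window with centre `c` and half-width `h` -/
noncomputable def win (h c : ℝ) : Finset (ℝ × ℕ) :=
  idxF ((Zf riemannZeta 1 (c + h)).filter (fun s => |s.im - c| ≤ h))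

lemma card_win {h c : ℝ} (hc : 1 < c - h) : ((win h c).card : ℝ) ≤ nz h c := by
  classical
  unfold win
  refine (card_idxF _).trans (le_of_eq ?_)
  rw [nz_eq (a := 1) (b := c + h) le_rfl hc le_rfl]
  rfl

lemma mem_win {h c : ℝ} (hc : 1 < c - h) {p : ℝ × ℕ} (h1 : Z p.1 = 0) (h2 : p.2 < mlt p.1)
    (h3 : |p.1 - c| ≤ h) : p ∈ win h c := by
  classical
  unfold win
  refine mem_idxF h1 h2 ?_
  rw [Finset.mem_filter, mem_Zf good_zeta le_rfl]
  have := abs_le.1 h3
  exact ⟨⟨by norm_num, by norm_num, by show 1 < p.1; linarith, by show p.1 ≤ c + h; linarith,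
    Z_half.1 h1⟩, h3⟩

/-- the box and the windows -/
lemma box_win {L x y d : ℝ} (hL : 0 < L) (h1 : x ≤ d * (L / (2 * Real.pi)))
    (h2 : d * (L / (2 * Real.pi)) ≤ y) :
    |d - Real.pi * (x + y) / L| ≤ Real.pi * (y - x) / L := by
  have hpi := Real.pi_pos
  have e1 : x * (2 * Real.pi) / L ≤ d := by
    rw [div_le_iff₀ hL]
    have : d * (L / (2 * Real.pi)) * (2 * Real.pi) = d * L := by field_simp
    nlinarith
  have e2 : d ≤ y * (2 * Real.pi) / L := by
    rw [le_div_iff₀ hL]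
    have : d * (L / (2 * Real.pi)) * (2 * Real.pi) = d * L := by field_simp
    nlinarith
  rw [abs_le]
  constructor
  · have : -(Real.pi * (y - x) / L) = x * (2 * Real.pi) / L - Real.pi * (x + y) / L := by ring
    rw [this]
    linarith
  · have : Real.pi * (y - x) / L = y * (2 * Real.pi) / L - Real.pi * (x + y) / L := by ring
    rw [this]
    linarith

/-- **weighted k-level sums** -/
theorem tup1 (hRH : RiemannHypothesis) : ∃ C T0 : ℝ, 1 ≤ C ∧ 128 ≤ T0 ∧
    ∀ T : ℝ, T0 ≤ T → ∀ K : ℝ, T ^ (1 - 1 / 64 : ℝ) ≤ K → K ≤ T / 2 →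
    ∀ S : Finset ℕ, Len S (T ^ (1 / 64 : ℝ)) → ∀ (r : ℕ → ℂ) (n : ℕ), 1 ≤ n →
    ∀ x y : Fin n → ℝ, (∀ i, x i ≤ y i) → (∀ i, |x i| ≤ T * Real.log T / 160) →
    (∀ i, |y i| ≤ T * Real.log T / 160) →
    ∀ F : Set (Fin (n + 1) → ℝ × ℕ), (∀ f ∈ F, (∀ i, f i ∈ idx) ∧ T < (f (Fin.last n)).1 ∧
      (f (Fin.last n)).1 ≤ T + K ∧ ∀ i : Fin n,
      x i ≤ ((f i.castSucc).1 - (f (Fin.last n)).1) * (Real.log T / (2 * Real.pi)) ∧
      ((f i.castSucc).1 - (f (Fin.last n)).1) * (Real.log T / (2 * Real.pi)) ≤ y i) →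
    F.Finite ∧ ∑ᶠ f ∈ F, ‖RP S r (f (Fin.last n)).1‖ ^ 2 ≤
      (∏ i, (C * (1 + (y i - x i) + Mk n))) * (K * Real.log T * w1 S r) := by
  classical
  obtain ⟨C, T0, hC, hT0, hk⟩ := kmom_all hRH
  refine ⟨4 * C, T0, by linarith, hT0, fun T hT K hK1 hK2 S hS r n hn x y hxy hx hy F hF => ?_⟩
  have hT128 : 128 ≤ T := hT0.trans hT
  have hL1 : 1 ≤ Real.log T := by
    rw [Real.le_log_iff_exp_le (by linarith)]
    have := Real.exp_one_lt_d9
    linarith
  have hL : 0 < Real.log T := by linarith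
  have hpi := Real.pi_pos
  have hpi2 := Real.pi_lt_d2
  have hM := Mk_pos hn
  set W := K * Real.log T * w1 S r with hWd
  have hK0 : 0 ≤ K := le_trans (by positivity) hK1
  have hW : 0 ≤ W := by
    have := w1_nonneg S r
    positivity
  set u : Fin n → ℝ := fun i => Real.pi * (x i + y i) / Real.log T with hu
  set h : Fin n → ℝ := fun i => Real.pi * (y i - x i) / Real.log T with hh
  have hu1 : ∀ i, |u i| ≤ T / 25 := fun i => by
    have h1 := abs_le.1 (hx i)
    have h2 := abs_le.1 (hy i)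
    simp only [hu]
    rw [abs_div, abs_of_pos hL, div_le_iff₀ hL, abs_mul, abs_of_pos hpi]
    have h3 : |x i + y i| ≤ T * Real.log T / 80 := abs_le.2 ⟨by linarith, by linarith⟩
    have h4 : Real.pi * |x i + y i| ≤ 3.15 * (T * Real.log T / 80) := by gcongr
    have h5 : 0 ≤ T * Real.log T := by positivity
    linarith
  have hh0 : ∀ i, 0 ≤ h i := fun i => by
    have := hxy i
    simp only [hh]
    have : 0 ≤ y i - x i := by linarith
    positivity
  have hh1 : ∀ i, h i ≤ T / 25 := fun i => by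
    have h1 := abs_le.1 (hx i)
    have h2 := abs_le.1 (hy i)
    have h0 := hxy i
    simp only [hh]
    rw [div_le_iff₀ hL]
    have h3 : y i - x i ≤ T * Real.log T / 80 := by linarith
    have h4 : Real.pi * (y i - x i) ≤ 3.15 * (T * Real.log T / 80) := by gcongr
    have h5 : 0 ≤ T * Real.log T := by positivity
    linarith
  set A := idxF ((Zf riemannZeta T (T + K)).filter (fun s => s.re = 1 / 2)) with hA
  have hwin : ∀ t, T < t → t ≤ T + K → ∀ i, 1 < t + u i - h i := fun t h1 h2 i => by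
    have := abs_le.1 (hu1 i)
    have := hh1 i
    linarith
  obtain ⟨g1, g2⟩ := tuple_sum A (fun i t => win (h i) (t + u i)) (fun t => ‖RP S r t‖ ^ 2)
    (fun _ => sq_nonneg _) F (fun f hf => by
      obtain ⟨p1, p2, p3, p4⟩ := hF f hf
      constructor
      · refine mem_idxF (p1 _).2.1 (p1 _).2.2 ?_
        rw [Finset.mem_filter, mem_Zf good_zeta (by linarith)]
        exact ⟨⟨by norm_num, by norm_num, p2, p3, Z_half.1 (p1 _).2.1⟩, rfl⟩
      · intro i
        refine mem_win (hwin _ p2 p3 i) (p1 _).2.1 (p1 _).2.2 ?_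
        have := box_win hL (p4 i).1 (p4 i).2
        rw [← sub_sub]
        exact this)
  refine ⟨g1, g2.trans ?_⟩
  refine (sum_idxF _ (fun t => ‖RP S r t‖ ^ 2 * ∏ i, ((win (h i) (t + u i)).card : ℝ))
    (fun _ => mul_nonneg (sq_nonneg _)
      (Finset.prod_nonneg fun _ _ => Nat.cast_nonneg _))).trans ?_
  have hZ : ∀ s ∈ (Zf riemannZeta T (T + K)).filter (fun s => s.re = 1 / 2),
      riemannZeta s = 0 ∧ 0 < s.re ∧ s.re < 1 ∧ T < s.im ∧ s.im ≤ T + K := fun s hs => by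
    rw [Finset.mem_filter, mem_Zf good_zeta (by linarith)] at hs
    obtain ⟨⟨q1, q2, q3, q4, q5⟩, -⟩ := hs
    exact ⟨q5, q1, q2, q3, q4⟩
  refine le_trans ?_ ((hk T hT K hK1 hK2 S hS r _ hZ n hn u h hu1 hh0 hh1).trans ?_)
  · refine Finset.sum_le_sum fun s hs => ?_
    obtain ⟨q1, q2, q3, q4, q5⟩ := hZ s hs
    rw [← mul_assoc]
    refine mul_le_mul_of_nonneg_left ?_ (mul_nonneg (Nat.cast_nonneg _) (sq_nonneg _))
    exact Finset.prod_le_prod (fun _ _ => Nat.cast_nonneg _)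
      fun i _ => card_win (hwin _ q4 q5 i)
  · refine mul_le_mul_of_nonneg_right ?_ hW
    refine Finset.prod_le_prod (fun i _ => ?_) fun i _ => ?_
    · have q1 := mul_nonneg (hh0 i) hL.le
      refine mul_nonneg (by linarith) (by linarith)
    · have e : h i * Real.log T = Real.pi * (y i - x i) := div_mul_cancel₀ _ hL.ne'
      rw [e]
      have h1 : 0 ≤ y i - x i := by linarith [hxy i]
      have h2 : Real.pi * (y i - x i) ≤ 4 * (y i - x i) := by
        have : Real.pi ≤ 4 := by linarith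
        gcongr
      calc C * (1 + Real.pi * (y i - x i) + Mk n) ≤ C * (4 * (1 + (y i - x i) + Mk n)) := by
            gcongr
            linarith
        _ = _ := by ring

end Pool.Agent.J4.H45.KL
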