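import Pool.Agent.J4.H45.MT.Fin
import Pool.Agent.J4.H45.KL.Core2

/-!
# From Gaussian averages to the values at the zeros
-/

open Complex Filter Topology Set MeasureTheory
open scoped BigOperators ComplexConjugate

namespace Pool.Agent.J4.H45.KL

open H370 Pool.Agent.N802 Pool.Agent.N802.U Pool.Agent.J4.H45.MT
open TC (om)
open Pool.Agent.N802.WD (wdz_sob wdz_cell wdz_cell_int wdz_swap rd RP_hasDeriv w1_rd wdz_cover)

/-- **transfer to the zeros** -/
theorem transfer2 {F : ℂ → ℂ} (hF : GoodL F) {δ' T : ℝ} (hδ' : 0 < δ') (hδ2 : δ' ≤ 1 / 2)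
    (hT60 : 60 ≤ T) {φ : ℝ} (hφ : 0 < φ) {S : Finset ℕ} {Z : Finset ℂ}
    (hyp : Len S ((9 / 10 * T) ^ δ') → Z ⊆ Zf F (9 / 10 * T) (2 * (9 / 10 * T)) →
      ∀ (r : ℕ → ℂ) (τ : ℝ),
      ∫ t in (9 / 10 * T + Real.log (9 / 10 * T))..(2 * (9 / 10 * T) - Real.log (9 / 10 * T)),
        rh τ ((9 / 10 * T) ^ (1 - δ')) S r t * gz F Z (1 / Real.log (9 / 10 * T)) t ≤
        φ * mr ((9 / 10 * T) ^ (1 - δ')) S r) :
    ∀ K : ℝ, T ^ (1 - δ' / 4) ≤ K → K ≤ T / 2 →
    Len S (T ^ (δ' / 4)) → ∀ (r : ℕ → ℂ), Z ⊆ Zf F T (T + K) →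
    ∑ s ∈ Z, (mult F s : ℝ) * ‖RP S r s.im‖ ^ 2 ≤
      100 * φ * (K * Real.log T * w1 S r) := by
  classical
  intro K hK1 hK2 hS r hZ
  set T1 : ℝ := 9 / 10 * T with hT1
  have hT1p : 1 ≤ T1 := by linarith
  have hT1T : T1 ≤ T := by rw [hT1]; linarith
  have hsq : T ≤ T1 ^ 2 := by
    rw [hT1]
    nlinarith
  set L := Real.log T with hL
  set L1 := Real.log T1 with hL1
  have hlogs := log_small hT60
  rw [← hL] at hlogs
  have hLL : L1 ≤ L := Real.log_le_log (by linarith) hT1T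
  have hLL2 : L ≤ 2 * L1 := by
    have := Real.log_le_log (by linarith) hsq
    rw [Real.log_pow] at this
    exact_mod_cast this
  have hL1' : 2 ≤ L := by
    rw [hL, Real.le_log_iff_exp_le (by linarith)]
    have h1 := Real.exp_one_lt_d9
    have h2 : Real.exp 2 = Real.exp 1 ^ 2 := by
      rw [← Real.exp_nat_mul]; norm_num
    rw [h2]
    nlinarith [Real.exp_pos 1]
  have hL1p : 1 ≤ L1 := by linarith
  set HH : ℝ := T1 ^ (1 - δ') with hHH
  have hH1 : 1 ≤ HH := Real.one_le_rpow hT1p (by linarith)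
  have hH0 : 0 < HH := by linarith
  have hHK : HH ≤ K := by
    refine le_trans ?_ hK1
    calc HH ≤ T ^ (1 - δ') := Real.rpow_le_rpow (by linarith) hT1T (by linarith)
      _ ≤ T ^ (1 - δ' / 4) := Real.rpow_le_rpow_of_exponent_le (by linarith) (by linarith)
  have hSlen : Len S (T1 ^ δ') := by
    intro k hk
    refine ⟨(hS k hk).1, (hS k hk).2.trans ?_⟩
    calc T ^ (δ' / 4) ≤ (T1 ^ 2) ^ (δ' / 4) :=
          Real.rpow_le_rpow (by linarith) hsq (by positivity)
      _ = T1 ^ (δ' / 2) := by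
          rw [← Real.rpow_natCast, ← Real.rpow_mul (by linarith)]
          congr 1
          push_cast
          ring
      _ ≤ T1 ^ δ' := Real.rpow_le_rpow_of_exponent_le hT1p (by linarith)
  have hSlog : ∀ k ∈ S, 1 ≤ k ∧ Real.log k ≤ L := by
    intro k hk
    refine ⟨(hS k hk).1, ?_⟩
    have hk1 : (1 : ℝ) ≤ k := by exact_mod_cast (hS k hk).1
    have h1 : Real.log k ≤ Real.log (T ^ (δ' / 4)) := Real.log_le_log (by linarith) (hS k hk).2
    rw [Real.log_rpow (by linarith)] at h1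
    refine h1.trans ?_
    rw [← hL]
    nlinarith
  have hZ1 : Z ⊆ Zf F T1 (2 * T1) := by
    intro s hs
    have h1 := hZ hs
    rw [mem_Zf hF (by linarith)] at h1 ⊢
    obtain ⟨a1, a2, a3, a4, a5⟩ := h1
    exact ⟨a1, a2, by linarith, by rw [hT1]; linarith, a5⟩
  have hinvL : 1 / L ≤ 1 := by
    rw [div_le_one (by linarith)]
    linarith
  have hinvL0 : 0 < 1 / L := by positivity
  have claim : ∀ (r' : ℕ → ℂ) (τ : ℝ), ∑ s ∈ Z, (mult F s : ℝ) *
      ∫ t in (T1 + L1)..(2 * T1 - L1), rh τ HH S r' t *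
        (if |s.im - (t + 0)| ≤ 1 / L1 then (1 : ℝ) else 0) ≤ φ * mr HH S r' := by
    intro r' τ
    have h := hyp hSlen hZ1 r' τ
    refine le_trans (le_of_eq ?_) h
    exact wdz_swap Z (fun s => (mult F s : ℝ)) (fun s => s.im)
      (Pool.Agent.N802.U.rh_cont τ HH S r') (T1 + L1) (2 * T1 - L1) (1 / L1)
  -- the function
  set g : ℝ → ℝ := fun t => 2 * L * ‖RP S r t‖ ^ 2 + ‖RP S (rd r) t‖ ^ 2 / L with hg
  have hR := Pool.Agent.N802.WD.RP_cont S r
  have hR' := Pool.Agent.N802.WD.RP_cont S (rd r)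
  have hgc : Continuous g := by
    rw [hg]
    fun_prop
  have hg0 : ∀ t, 0 ≤ g t := by
    intro t
    rw [hg]
    positivity
  set n := ⌊((T + K + 1) - (T - 1)) / HH⌋₊ + 1 with hn
  set τ : ℕ → ℝ := fun j => (T - 1) + j * HH with hτ
  have homc : ∀ j, Continuous (fun t => om (τ j) HH t * g t) := by
    intro j
    unfold om
    fun_prop
  have key : ∀ s ∈ Z, ‖RP S r s.im‖ ^ 2 ≤ Real.exp (1 / 2) * ∑ j ∈ Finset.range n,
      (2 * L * (∫ t in (T1 + L1)..(2 * T1 - L1), rh (τ j) HH S r t *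
        (if |s.im - (t + 0)| ≤ 1 / L1 then (1 : ℝ) else 0)) +
      1 / L * (∫ t in (T1 + L1)..(2 * T1 - L1), rh (τ j) HH S (rd r) t *
        (if |s.im - (t + 0)| ≤ 1 / L1 then (1 : ℝ) else 0))) := by
    intro s hs
    have hs1 : s ∈ Zf F T (T + K) := hZ hs
    rw [mem_Zf hF (by linarith)] at hs1
    obtain ⟨-, -, hs3, hs4, -⟩ := hs1
    have h1 := wdz_sob (f := RP S r) (f' := RP S (rd r)) (RP_hasDeriv S r) hR' (L := L) s.im
      (by linarith)
    refine h1.trans ?_
    have h2 : ∫ t in (s.im - 1 / L)..(s.im + 1 / L), g t ≤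
        ∫ t in (s.im - 1 / L)..(s.im + 1 / L),
          ∑ j ∈ Finset.range n, Real.exp (1 / 2) * (om (τ j) HH t * g t) := by
      refine intervalIntegral.integral_mono_on (by linarith) (hgc.intervalIntegrable _ _)
        ((continuous_finsetSum _ fun j _ =>
          continuous_const.mul (homc j)).intervalIntegrable _ _) ?_
      intro t ht
      have h3 := wdz_cover (u := T - 1) (v := T + K + 1) hH0 (by linarith) (t := t)
        (by linarith [ht.1]) (by linarith [ht.2])
      have h4 := mul_le_mul_of_nonneg_right h3 (hg0 t)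
      rw [one_mul] at h4
      refine h4.trans (le_of_eq ?_)
      rw [mul_assoc, Finset.sum_mul, Finset.mul_sum]
    refine h2.trans ?_
    rw [intervalIntegral.integral_finsetSum
      (f := fun (j : ℕ) (t : ℝ) => Real.exp (1 / 2) * (om (τ j) HH t * g t)) (fun j _ =>
      (continuous_const.mul (homc j)).intervalIntegrable _ _), Finset.mul_sum]
    refine Finset.sum_le_sum fun j _ => ?_
    rw [intervalIntegral.integral_const_mul]
    refine mul_le_mul_of_nonneg_left ?_ (Real.exp_pos _).le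
    have h5 := wdz_cell (homc j) (fun t => mul_nonneg (Real.exp_pos _).le (hg0 t))
      (a := T1 + L1) (b := 2 * T1 - L1) (u := s.im - 1 / L) (v := s.im + 1 / L) (A := 1 / L1) s.im
      (by linarith) (by rw [hT1]; linarith) (by rw [hT1]; linarith) (by
        intro t ht
        have e1 : 1 / L ≤ 1 / L1 := one_div_le_one_div_of_le (by linarith) hLL
        rw [abs_le]
        constructor <;> linarith [ht.1, ht.2])
    refine h5.trans (le_of_eq ?_)
    rw [← intervalIntegral.integral_const_mul, ← intervalIntegral.integral_const_mul,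
      ← intervalIntegral.integral_add
        ((wdz_cell_int (Pool.Agent.N802.U.rh_cont _ _ _ _) _ _ _ _).const_mul _)
        ((wdz_cell_int (Pool.Agent.N802.U.rh_cont _ _ _ _) _ _ _ _).const_mul _)]
    congr 1
    funext t
    simp only [rh, hg]
    ring
  have hw : 0 ≤ w1 S r := w1_nonneg S r
  have hpi : Real.sqrt (2 * Real.pi) ≤ 2.6 := by
    rw [Real.sqrt_le_iff]
    constructor
    · norm_num
    · have := Real.pi_lt_d2
      norm_num
      linarith
  have hpi0 : 0 < Real.sqrt (2 * Real.pi) := Real.sqrt_pos.2 (by positivity)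
  have hexp : Real.exp (1 / 2) ≤ 1.7 := by
    have h3 : Real.exp (1 / 2) ^ 2 ≤ 1.7 ^ 2 := by
      rw [← Real.exp_nat_mul]
      have h4 : ((2 : ℕ) : ℝ) * (1 / 2) = 1 := by norm_num
      rw [h4]
      have := Real.exp_one_lt_d9
      refine this.le.trans ?_
      norm_num
    exact le_of_pow_le_pow_left₀ (by norm_num) (by norm_num) h3
  calc ∑ s ∈ Z, (mult F s : ℝ) * ‖RP S r s.im‖ ^ 2
      ≤ ∑ s ∈ Z, (mult F s : ℝ) * (Real.exp (1 / 2) * ∑ j ∈ Finset.range n,
      (2 * L * (∫ t in (T1 + L1)..(2 * T1 - L1), rh (τ j) HH S r t *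
        (if |s.im - (t + 0)| ≤ 1 / L1 then (1 : ℝ) else 0)) +
      1 / L * (∫ t in (T1 + L1)..(2 * T1 - L1), rh (τ j) HH S (rd r) t *
        (if |s.im - (t + 0)| ≤ 1 / L1 then (1 : ℝ) else 0)))) :=
        Finset.sum_le_sum fun s hs => mul_le_mul_of_nonneg_left (key s hs) (Nat.cast_nonneg _)
    _ = Real.exp (1 / 2) * ∑ j ∈ Finset.range n, (2 * L * (∑ s ∈ Z, (mult F s : ℝ) *
        ∫ t in (T1 + L1)..(2 * T1 - L1), rh (τ j) HH S r t *
        (if |s.im - (t + 0)| ≤ 1 / L1 then (1 : ℝ) else 0)) +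
        1 / L * (∑ s ∈ Z, (mult F s : ℝ) * ∫ t in (T1 + L1)..(2 * T1 - L1),
        rh (τ j) HH S (rd r) t *
        (if |s.im - (t + 0)| ≤ 1 / L1 then (1 : ℝ) else 0))) := by
        simp only [Finset.mul_sum]
        rw [Finset.sum_comm]
        refine Finset.sum_congr rfl fun j _ => ?_
        rw [← Finset.sum_add_distrib, Finset.mul_sum]
        refine Finset.sum_congr rfl fun s _ => ?_
        ring
    _ ≤ Real.exp (1 / 2) * ∑ j ∈ Finset.range n, (2 * L * (φ * mr HH S r) +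
        1 / L * (φ * mr HH S (rd r))) := by
        refine mul_le_mul_of_nonneg_left (Finset.sum_le_sum fun j _ => ?_) (Real.exp_pos _).le
        exact add_le_add (mul_le_mul_of_nonneg_left (claim r (τ j)) (by positivity))
          (mul_le_mul_of_nonneg_left (claim (rd r) (τ j)) (by positivity))
    _ ≤ Real.exp (1 / 2) * ((n : ℝ) * (φ * (Real.sqrt (2 * Real.pi) * HH) * (3 * L * w1 S r))) := by
        rw [Finset.sum_const, Finset.card_range, nsmul_eq_mul]
        refine mul_le_mul_of_nonneg_left (mul_le_mul_of_nonneg_left ?_ (Nat.cast_nonneg _))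
          (Real.exp_pos _).le
        have h1 := w1_rd (r := r) hSlog
        unfold mr
        have h2 : 1 / L * (φ * (Real.sqrt (2 * Real.pi) * HH * w1 S (rd r))) ≤
            1 / L * (φ * (Real.sqrt (2 * Real.pi) * HH * (L ^ 2 * w1 S r))) := by
          gcongr
        have h3 : 1 / L * (φ * (Real.sqrt (2 * Real.pi) * HH * (L ^ 2 * w1 S r))) =
            φ * (Real.sqrt (2 * Real.pi) * HH) * (L * w1 S r) := by
          field_simp
        rw [h3] at h2
        refine (add_le_add_right h2 _).trans (le_of_eq ?_)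
        ring
    _ = Real.exp (1 / 2) * (φ * Real.sqrt (2 * Real.pi) * (3 * L * w1 S r)) * (n * HH) := by ring
    _ ≤ Real.exp (1 / 2) * (φ * Real.sqrt (2 * Real.pi) * (3 * L * w1 S r)) * (4 * K) := by
        refine mul_le_mul_of_nonneg_left ?_ (by positivity)
        have h1 : (⌊((T + K + 1) - (T - 1)) / HH⌋₊ : ℝ) ≤ ((T + K + 1) - (T - 1)) / HH :=
          Nat.floor_le (by apply div_nonneg <;> linarith)
        have h2 : (n : ℝ) = (⌊((T + K + 1) - (T - 1)) / HH⌋₊ : ℝ) + 1 := by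
          rw [hn]; push_cast; ring
        rw [h2]
        have h3 : (⌊((T + K + 1) - (T - 1)) / HH⌋₊ : ℝ) * HH ≤ (T + K + 1) - (T - 1) :=
          (le_div_iff₀ hH0).1 h1
        nlinarith
    _ ≤ 1.7 * (φ * 2.6 * (3 * L * w1 S r)) * (4 * K) := by
        have hK0 : 0 ≤ K := by linarith
        have : 0 ≤ 3 * L * w1 S r := by positivity
        gcongr
    _ ≤ 100 * φ * (K * L * w1 S r) := by
        have hK0 : 0 ≤ K := by linarith
        have h5 : 0 ≤ φ * (K * L * w1 S r) := by positivity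
        nlinarith

end Pool.Agent.J4.H45.KL
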